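import Mathlib

/-!
# Counting relations on an interval with sparse quotients (helper385)
-/

set_option autoImplicit false

namespace Pool.Agent.N385.ST

open Finset

/-- the images of `M` under monotone maps onto `K` points have at most `D * K` elements -/
def Lin (D N : ℕ) (M : Finset (ℕ × ℕ)) : Prop :=
  ∀ (K : ℕ) (f : ℕ → ℕ), Monotone f → (∀ i < N, f i < K) →
    (M.image (Prod.map f f)).card ≤ D * K

open Classical in
/-- the class of relations with sparse quotients -/
noncomputable def cls (D N : ℕ) : Finset (Finset (ℕ × ℕ)) :=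
  ((range N ×ˢ range N).powerset).filter (Lin D N)

open Classical in
theorem mem_cls {D N : ℕ} {M : Finset (ℕ × ℕ)} :
    M ∈ cls D N ↔ M ⊆ range N ×ˢ range N ∧ Lin D N M := by
  unfold cls
  rw [mem_filter, mem_powerset]

/-- preimages under halving -/
def blow (M : Finset (ℕ × ℕ)) : Finset (ℕ × ℕ) :=
  M.biUnion fun p => ({2 * p.1, 2 * p.1 + 1} : Finset ℕ) ×ˢ ({2 * p.2, 2 * p.2 + 1} : Finset ℕ)

theorem card_blow (M : Finset (ℕ × ℕ)) : (blow M).card ≤ M.card * 4 := by
  refine Finset.card_biUnion_le_card_mul _ _ _ fun p _ => ?_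
  rw [card_product]
  exact Nat.mul_le_mul (card_le_two) (card_le_two)

/-- halving -/
def hf : ℕ × ℕ → ℕ × ℕ := Prod.map (fun i => i / 2) (fun i => i / 2)

theorem sub_blow (M : Finset (ℕ × ℕ)) : M ⊆ blow (M.image hf) := by
  intro p hp
  rw [blow, mem_biUnion]
  refine ⟨hf p, mem_image_of_mem _ hp, ?_⟩
  rw [mem_product]
  simp only [hf, Prod.map_fst, Prod.map_snd, mem_insert, mem_singleton]
  constructor <;> omega

theorem half_mem {D N : ℕ} {M : Finset (ℕ × ℕ)} (hM : M ∈ cls D N) :
    M.image hf ∈ cls D ((N + 1) / 2) := by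
  rw [mem_cls] at hM ⊢
  obtain ⟨h1, h2⟩ := hM
  constructor
  · intro p hp
    obtain ⟨q, hq, rfl⟩ := mem_image.1 hp
    have h3 := h1 hq
    simp only [mem_product, mem_range, hf, Prod.map_fst, Prod.map_snd] at h3 ⊢
    constructor <;> omega
  · intro K f hf1 hf2
    have h3 := h2 K (fun i => f (i / 2)) (fun a b hab => hf1 (Nat.div_le_div_right hab))
      (fun i hi => hf2 _ (by omega))
    refine le_trans (le_of_eq ?_) h3
    rw [image_image]
    rfl

theorem card_le_of_mem {D N : ℕ} {M : Finset (ℕ × ℕ)} (hM : M ∈ cls D N) : M.card ≤ D * N := by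
  rw [mem_cls] at hM
  have h := hM.2 N id monotone_id (fun i hi => hi)
  rwa [Prod.map_id, image_id] at h

/-- **the number of relations with sparse quotients is at most exponential** -/
theorem card_cls (D N : ℕ) : (cls D N).card ≤ 2 * 16 ^ (4 * D * N) := by
  induction N using Nat.strong_induction_on with
  | _ N ih =>
    by_cases hN : N < 2
    · have h1 : (cls D N).card ≤ 2 := by
        have h0 : cls D N ⊆ (range N ×ˢ range N).powerset := fun M hM =>
          mem_powerset.2 (mem_cls.1 hM).1
        refine (card_le_card h0).trans ?_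
        rw [card_powerset, card_product, card_range]
        interval_cases N <;> norm_num
      have h2 : 1 ≤ 16 ^ (4 * D * N) := Nat.one_le_pow _ _ (by norm_num)
      omega
    · obtain ⟨N', hN'⟩ : ∃ N', N' = (N + 1) / 2 := ⟨_, rfl⟩
      have h1 : cls D N ⊆ (cls D N').biUnion fun M => (blow M).powerset := by
        intro M hM
        rw [mem_biUnion]
        exact ⟨M.image hf, hN' ▸ half_mem hM, mem_powerset.2 (sub_blow M)⟩
      have h2 : ((cls D N').biUnion fun M => (blow M).powerset).card ≤
          (cls D N').card * 2 ^ (4 * (D * N')) := by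
        refine Finset.card_biUnion_le_card_mul _ _ _ fun M hM => ?_
        rw [card_powerset]
        refine Nat.pow_le_pow_right (by norm_num) ?_
        have h3 := card_blow M
        have h4 := card_le_of_mem hM
        omega
      have h3 := ih N' (by omega)
      calc (cls D N).card ≤ (cls D N').card * 2 ^ (4 * (D * N')) := (card_le_card h1).trans h2
        _ ≤ (2 * 16 ^ (4 * D * N')) * 2 ^ (4 * (D * N')) := Nat.mul_le_mul_right _ h3
        _ = 2 * 16 ^ (4 * D * N' + D * N') := by
          rw [pow_mul 2 4, pow_add]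
          norm_num
          ring
        _ ≤ 2 * 16 ^ (4 * D * N) := by
          refine Nat.mul_le_mul_left _ (Nat.pow_le_pow_right (by norm_num) ?_)
          have h5 : 5 * N' ≤ 4 * N := by omega
          calc 4 * D * N' + D * N' = D * (5 * N') := by ring
            _ ≤ D * (4 * N) := Nat.mul_le_mul_left _ h5
            _ = 4 * D * N := by ring

end Pool.Agent.N385.ST
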