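import Mathlib
import Pool.Agent.N385.ST.Count

/-!
# Packing and the sparse quotients of Euclidean minimum spanning trees (helper385)
-/

set_option autoImplicit false

namespace Pool.Agent.N385.ST

open Finset

/-- the packing constant -/
theorem pack (d : ℕ) : ∃ c : ℕ, ∀ (S : Finset ℕ) (ω : ℕ → EuclideanSpace ℝ (Fin d)),
    (∀ b ∈ S, ‖ω b‖ ≤ 1) → (∀ b ∈ S, ∀ b' ∈ S, b ≠ b' → 1 / 2 ≤ ‖ω b - ω b'‖) → S.card ≤ c := by
  obtain ⟨t, -, ht, hcov⟩ := (isCompact_closedBall (0 : EuclideanSpace ℝ (Fin d)) 1).finite_cover_balls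
    (by norm_num : (0 : ℝ) < 1 / 4)
  refine ⟨ht.toFinset.card, fun S ω h1 h2 => ?_⟩
  have h3 : ∀ b ∈ S, ∃ x ∈ t, dist (ω b) x < 1 / 4 := by
    intro b hb
    have h4 : ω b ∈ Metric.closedBall (0 : EuclideanSpace ℝ (Fin d)) 1 := by
      rw [mem_closedBall_zero_iff]
      exact h1 b hb
    have h5 := hcov h4
    simp only [Set.mem_iUnion, Metric.mem_ball] at h5
    obtain ⟨x, hx, h6⟩ := h5
    exact ⟨x, hx, h6⟩
  choose! x hx hx2 using h3
  refine card_le_card_of_injOn x (fun b hb => by simpa using hx b hb) ?_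
  intro b hb b' hb' hbb
  by_contra hne
  have h4 := h2 b hb b' hb' hne
  have h5 := hx2 b hb
  have h6 := hx2 b' hb'
  have h7 := dist_triangle_right (ω b) (ω b') (x b)
  rw [hbb] at h5
  rw [hbb, dist_eq_norm] at h7
  linarith

theorem sep_dir {F : Type} [NormedAddCommGroup F] [NormedSpace ℝ F] (u v u' v' : F) (δ : ℝ)
    (hl : 0 < ‖v - u‖) (hl' : 0 < ‖v' - u'‖) (h1 : ‖v' - u'‖ ≤ ‖v - u‖)
    (h2 : ‖v - u‖ ≤ ‖v - v'‖) (h3 : ‖u - u'‖ ≤ δ) (h4 : 2 * δ ≤ ‖v' - u'‖) :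
    1 / 2 ≤ ‖‖v - u‖⁻¹ • (v - u) - ‖v' - u'‖⁻¹ • (v' - u')‖ := by
  obtain ⟨ℓ, hℓ⟩ : ∃ ℓ, ℓ = ‖v - u‖ := ⟨_, rfl⟩
  obtain ⟨ℓ', hℓ'⟩ : ∃ ℓ', ℓ' = ‖v' - u'‖ := ⟨_, rfl⟩
  obtain ⟨X, hX⟩ : ∃ X, X = ℓ⁻¹ • (v - u) := ⟨_, rfl⟩
  obtain ⟨X', hX'⟩ : ∃ X', X' = ℓ'⁻¹ • (v' - u') := ⟨_, rfl⟩
  rw [← hℓ] at hl h1 h2
  rw [← hℓ'] at hl' h1 h4
  have e1 : v - u = ℓ • X := by rw [hX, smul_smul, mul_inv_cancel₀ hl.ne', one_smul]
  have e2 : v' - u' = ℓ' • X' := by rw [hX', smul_smul, mul_inv_cancel₀ hl'.ne', one_smul]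
  have n1 : ‖X‖ = 1 := by
    rw [hX, norm_smul, ← hℓ, norm_inv, Real.norm_of_nonneg hl.le, inv_mul_cancel₀ hl.ne']
  rw [← hℓ, ← hℓ', ← hX, ← hX']
  have e3 : v - v' = (u - u') + ((ℓ - ℓ') • X + ℓ' • (X - X')) := by
    rw [sub_smul, smul_sub, ← e1, ← e2]
    abel
  have h5 : ‖v - v'‖ ≤ δ + ((ℓ - ℓ') + ℓ' * ‖X - X'‖) := by
    rw [e3]
    refine (norm_add_le _ _).trans (add_le_add h3 ((norm_add_le _ _).trans (add_le_add ?_ ?_)))
    · rw [norm_smul, n1, mul_one, Real.norm_of_nonneg (by linarith)]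
    · rw [norm_smul, Real.norm_of_nonneg hl'.le]
  have h6 : ℓ' * (1 / 2) ≤ ℓ' * ‖X - X'‖ := by linarith
  exact le_of_mul_le_mul_left h6 hl'

/-- the cell of level `j` of a point -/
noncomputable def cell {d : ℕ} (j : ℕ) (x : EuclideanSpace ℝ (Fin d)) : Fin d → ℤ :=
  fun i => ⌊(2 : ℝ) ^ j * x i⌋

theorem abs_coord_le {d : ℕ} (x y : EuclideanSpace ℝ (Fin d)) (i : Fin d) : |x i - y i| ≤ ‖x - y‖ := by
  have h := PiLp.norm_apply_le (x - y) i
  simpa using h

theorem norm_le_of_coord {d : ℕ} (x y : EuclideanSpace ℝ (Fin d)) {t : ℝ} (ht : 0 ≤ t)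
    (h : ∀ i, |x i - y i| ≤ t) : ‖x - y‖ ≤ d * t := by
  rw [EuclideanSpace.norm_eq]
  apply Real.sqrt_le_iff.2
  refine ⟨by positivity, ?_⟩
  have h1 : ∑ i, ‖(x - y) i‖ ^ 2 ≤ ∑ _i : Fin d, t ^ 2 := by
    refine Finset.sum_le_sum fun i _ => ?_
    have h2 : ‖(x - y) i‖ = |x i - y i| := by simp
    rw [h2]
    exact pow_le_pow_left₀ (abs_nonneg _) (h i) 2
  refine h1.trans ?_
  rw [Finset.sum_const, Finset.card_univ, Fintype.card_fin, nsmul_eq_mul, mul_pow]
  have h3 : (d : ℝ) ≤ (d : ℝ) ^ 2 := by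
    rcases Nat.eq_zero_or_pos d with h4 | h4
    · subst h4; norm_num
    · have : (1 : ℝ) ≤ d := by exact_mod_cast h4
      nlinarith
  exact mul_le_mul_of_nonneg_right h3 (sq_nonneg _)

theorem norm_le_of_cell {d : ℕ} {x y : EuclideanSpace ℝ (Fin d)} {j : ℕ} (h : cell j x = cell j y) :
    ‖x - y‖ ≤ d * ((2 : ℝ) ^ j)⁻¹ := by
  refine norm_le_of_coord x y (by positivity) fun i => ?_
  have h1 : ⌊(2 : ℝ) ^ j * x i⌋ = ⌊(2 : ℝ) ^ j * y i⌋ := congrFun h i
  have h2 := Int.abs_sub_lt_one_of_floor_eq_floor h1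
  have h3 : (0 : ℝ) < 2 ^ j := by positivity
  rw [← mul_sub, abs_mul, abs_of_pos h3] at h2
  rw [← one_div, le_div_iff₀ h3]
  linarith

/-- the number of the cells of level `j + 1` near a point -/
theorem cell_near {d : ℕ} {x y : EuclideanSpace ℝ (Fin d)} {j : ℕ}
    (h : ‖y - x‖ < 3 * (d * ((2 : ℝ) ^ j)⁻¹)) (i : Fin d) :
    |cell (j + 1) y i - cell (j + 1) x i| ≤ 6 * d + 1 := by
  have h1 := (abs_coord_le y x i).trans_lt h
  have h3 : (0 : ℝ) < 2 ^ j := by positivity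
  have h4 : |(2 : ℝ) ^ (j + 1) * y i - (2 : ℝ) ^ (j + 1) * x i| < 6 * d := by
    rw [← mul_sub, abs_mul, abs_of_pos (by positivity)]
    calc (2 : ℝ) ^ (j + 1) * |y i - x i| < 2 ^ (j + 1) * (3 * (d * ((2 : ℝ) ^ j)⁻¹)) := by gcongr
      _ = 6 * d := by
        rw [pow_succ]
        field_simp
        ring
  have h5 := Int.floor_le ((2 : ℝ) ^ (j + 1) * y i)
  have h6 := Int.lt_floor_add_one ((2 : ℝ) ^ (j + 1) * y i)
  have h7 := Int.floor_le ((2 : ℝ) ^ (j + 1) * x i)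
  have h8 := Int.lt_floor_add_one ((2 : ℝ) ^ (j + 1) * x i)
  have h9 := abs_lt.1 h4
  have h10 : ((|cell (j + 1) y i - cell (j + 1) x i| : ℤ) : ℝ) < 6 * d + 1 + 1 := by
    rw [Int.cast_abs, Int.cast_sub, abs_lt]
    unfold cell
    constructor <;> linarith [h9.1, h9.2]
  have h11 : |cell (j + 1) y i - cell (j + 1) x i| < 6 * (d : ℤ) + 1 + 1 := by
    exact_mod_cast h10
  omega

/-- the data: points in general position with respect to dyadic cells, in Morton order, and a graph with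
the exchange property of minimum spanning trees -/
structure Dat (d m N : ℕ) (V : Type) (q : V → EuclideanSpace ℝ (Fin d)) (r : V → ℕ)
    (G : SimpleGraph V) : Prop where
  inj : Function.Injective r
  lt : ∀ v, r v < N
  cvx : ∀ j ≤ m, ∀ u v w, r u ≤ r v → r v ≤ r w → cell j (q u) = cell j (q w) →
    cell j (q v) = cell j (q u)
  top : ∀ u v, cell 0 (q u) = cell 0 (q v)
  sep : ∀ u v, cell m (q u) = cell m (q v) → u = v
  ex : ∀ u v u' v', G.Adj u v → G.Adj u' v' → s(u, v) ≠ s(u', v') → ‖q u - q u'‖ < ‖q v - q u‖ →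
    ‖q v' - q u'‖ ≤ ‖q v - q u‖ → ‖q v - q u‖ ≤ ‖q v - q v'‖

theorem long_card {d m N : ℕ} {V : Type} {q : V → EuclideanSpace ℝ (Fin d)} {r : V → ℕ}
    {G : SimpleGraph V} (H : Dat d m N V q r G) {c : ℕ}
    (hc : ∀ (S : Finset ℕ) (ω : ℕ → EuclideanSpace ℝ (Fin d)),
    (∀ b ∈ S, ‖ω b‖ ≤ 1) → (∀ b ∈ S, ∀ b' ∈ S, b ≠ b' → 1 / 2 ≤ ‖ω b - ω b'‖) → S.card ≤ c)
    (S : Finset ℕ) (u v : ℕ → V) (δ : ℝ) (hadj : ∀ b ∈ S, G.Adj (u b) (v b))
    (hne : ∀ b ∈ S, ∀ b' ∈ S, b ≠ b' → s(u b, v b) ≠ s(u b', v b'))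
    (hδ : ∀ b ∈ S, ∀ b' ∈ S, ‖q (u b) - q (u b')‖ ≤ δ)
    (hl : ∀ b ∈ S, 2 * δ ≤ ‖q (v b) - q (u b)‖) : S.card ≤ c := by
  have hpos : ∀ b ∈ S, 0 < ‖q (v b) - q (u b)‖ := by
    intro b hb
    rw [norm_pos_iff, sub_ne_zero]
    intro h
    refine (hadj b hb).ne (H.sep _ _ ?_)
    rw [h]
  have key : ∀ b ∈ S, ∀ b' ∈ S, b ≠ b' → ‖q (v b') - q (u b')‖ ≤ ‖q (v b) - q (u b)‖ →
      1 / 2 ≤ ‖‖q (v b) - q (u b)‖⁻¹ • (q (v b) - q (u b)) -
        ‖q (v b') - q (u b')‖⁻¹ • (q (v b') - q (u b'))‖ := by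
    intro b hb b' hb' hbb hle
    refine sep_dir _ _ _ _ δ (hpos b hb) (hpos b' hb') hle ?_ (hδ b hb b' hb') (hl b' hb')
    refine H.ex _ _ _ _ (hadj b hb) (hadj b' hb') (hne b hb b' hb' hbb) ?_ hle
    have h1 := hδ b hb b' hb'
    have h2 := hl b' hb'
    have h3 := hpos b hb
    have h4 := norm_nonneg (q (u b) - q (u b'))
    linarith
  refine hc S (fun b => ‖q (v b) - q (u b)‖⁻¹ • (q (v b) - q (u b))) ?_ ?_
  · intro b hb
    rw [norm_smul, norm_inv, norm_norm, inv_mul_cancel₀ (hpos b hb).ne']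
  · intro b hb b' hb' hbb
    rcases le_total ‖q (v b') - q (u b')‖ ‖q (v b) - q (u b)‖ with h | h
    · exact key b hb b' hb' hbb h
    · rw [norm_sub_rev]
      exact key b' hb' b hb hbb.symm h

theorem short_card {d m N : ℕ} {V : Type} {q : V → EuclideanSpace ℝ (Fin d)} {r : V → ℕ}
    {G : SimpleGraph V} (H : Dat d m N V q r G) {j : ℕ} (hj : j < m) (g : V → ℕ)
    (hg : ∀ u v, r u ≤ r v → g u ≤ g v) (S : Finset ℕ) (v w : ℕ → V) (x : EuclideanSpace ℝ (Fin d))
    (hv : ∀ b ∈ S, g (v b) = b) (hw : ∀ b ∈ S, g (w b) = b)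
    (hc : ∀ b ∈ S, cell (j + 1) (q (w b)) ≠ cell (j + 1) (q (v b)))
    (hn : ∀ b ∈ S, ‖q (v b) - x‖ < 3 * (d * ((2 : ℝ) ^ j)⁻¹)) : S.card ≤ 2 * (12 * d + 3) ^ d := by
  have key : ∀ b ∈ S, ∀ b' ∈ S, b < b' → cell (j + 1) (q (v b)) = cell (j + 1) (q (v b')) →
      decide (r (w b) < r (v b)) = decide (r (w b') < r (v b')) → False := by
    intro b hb b' hb' hlt hcell hdec
    have ord : ∀ y z, g y = b → g z = b' → r y < r z := by
      intro y z hy hz
      by_contra hcon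
      push Not at hcon
      have := hg z y hcon
      omega
    by_cases h1 : r (w b') < r (v b')
    · have h2 := ord (v b) (w b') (hv b hb) (hw b' hb')
      have h3 := H.cvx (j + 1) hj (v b) (w b') (v b') h2.le h1.le hcell
      exact hc b' hb' (h3.trans hcell)
    · have h4 : ¬ r (w b) < r (v b) := by
        intro h5
        rw [decide_eq_true h5] at hdec
        exact h1 (of_decide_eq_true hdec.symm)
      push Not at h4
      have h2 := ord (w b) (v b') (hw b hb) (hv b' hb')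
      exact hc b hb (H.cvx (j + 1) hj (v b) (w b) (v b') h4 h2.le hcell)
  have h1 : S.card ≤ ((Fintype.piFinset fun i => Finset.Icc (cell (j + 1) x i - (6 * d + 1))
      (cell (j + 1) x i + (6 * d + 1))) ×ˢ (Finset.univ : Finset Bool)).card := by
    refine card_le_card_of_injOn
      (fun b => (cell (j + 1) (q (v b)), decide (r (w b) < r (v b)))) ?_ ?_
    · intro b hb
      rw [Finset.mem_coe, Finset.mem_product]
      refine ⟨?_, Finset.mem_univ _⟩
      rw [Fintype.mem_piFinset]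
      intro i
      rw [Finset.mem_Icc]
      have h2 := abs_le.1 (cell_near (hn b hb) i)
      constructor <;> linarith [h2.1, h2.2]
    · intro b hb b' hb' hbb
      by_contra hne
      simp only [Prod.mk.injEq] at hbb
      rcases lt_or_gt_of_ne hne with h2 | h2
      · exact key b hb b' hb' h2 hbb.1 hbb.2
      · exact key b' hb' b hb h2 hbb.1.symm hbb.2.symm
  refine h1.trans (le_of_eq ?_)
  rw [Finset.card_product, Fintype.card_piFinset]
  have h3 : ∀ i : Fin d, (Finset.Icc (cell (j + 1) x i - (6 * (d : ℤ) + 1))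
      (cell (j + 1) x i + (6 * d + 1))).card = 12 * d + 3 := by
    intro i
    rw [Int.card_Icc]
    have : cell (j + 1) x i + (6 * (d : ℤ) + 1) + 1 - (cell (j + 1) x i - (6 * d + 1)) =
        ((12 * d + 3 : ℕ) : ℤ) := by
      push_cast
      ring
    rw [this, Int.toNat_natCast]
  rw [Finset.prod_congr rfl fun i _ => h3 i, Finset.prod_const, Finset.card_univ, Finset.card_univ,
    Fintype.card_fin, Fintype.card_bool, mul_comm]

open Classical in
/-- the finest level at which a block is contained in one cell -/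
noncomputable def lev {d : ℕ} (m : ℕ) {V : Type} (q : V → EuclideanSpace ℝ (Fin d)) (g : V → ℕ)
    (a : ℕ) : ℕ :=
  Nat.findGreatest (fun j => ∀ u v, g u = a → g v = a → cell j (q u) = cell j (q v)) m

theorem lev_le {d : ℕ} (m : ℕ) {V : Type} (q : V → EuclideanSpace ℝ (Fin d)) (g : V → ℕ) (a : ℕ) :
    lev m q g a ≤ m := by
  classical
  exact Nat.findGreatest_le m

theorem lev_spec {d m N : ℕ} {V : Type} {q : V → EuclideanSpace ℝ (Fin d)} {r : V → ℕ}
    {G : SimpleGraph V} (H : Dat d m N V q r G) (g : V → ℕ) (a : ℕ) {u v : V} (hu : g u = a)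
    (hv : g v = a) : cell (lev m q g a) (q u) = cell (lev m q g a) (q v) := by
  classical
  have h := Nat.findGreatest_spec (P := fun j => ∀ u v, g u = a → g v = a →
    cell j (q u) = cell j (q v)) (Nat.zero_le m) (fun u v _ _ => H.top u v)
  unfold lev
  convert h u v hu hv

theorem lev_not {d : ℕ} {m : ℕ} {V : Type} {q : V → EuclideanSpace ℝ (Fin d)} {g : V → ℕ}
    {a j : ℕ} (h1 : lev m q g a < j) (h2 : j ≤ m) :
    ∃ u v, g u = a ∧ g v = a ∧ cell j (q u) ≠ cell j (q v) := by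
  classical
  have h : ¬ ∀ u v, g u = a → g v = a → cell j (q u) = cell j (q v) := by
    refine Nat.findGreatest_is_greatest (P := fun j => ∀ u v, g u = a → g v = a →
      cell j (q u) = cell j (q v)) ?_ h2
    unfold lev at h1
    convert h1
  push Not at h
  exact h

theorem block_card {d m N : ℕ} {V : Type} {q : V → EuclideanSpace ℝ (Fin d)} {r : V → ℕ}
    {G : SimpleGraph V} (H : Dat d m N V q r G) {c : ℕ}
    (hc : ∀ (S : Finset ℕ) (ω : ℕ → EuclideanSpace ℝ (Fin d)),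
    (∀ b ∈ S, ‖ω b‖ ≤ 1) → (∀ b ∈ S, ∀ b' ∈ S, b ≠ b' → 1 / 2 ≤ ‖ω b - ω b'‖) → S.card ≤ c)
    (g : V → ℕ) (hg : ∀ u v, r u ≤ r v → g u ≤ g v) (a : ℕ) (S : Finset ℕ)
    (hS : ∀ b ∈ S, b ≠ a ∧ lev m q g b ≤ lev m q g a ∧ ∃ u v, g u = a ∧ g v = b ∧ G.Adj u v) :
    S.card ≤ c + 2 * (12 * d + 3) ^ d := by
  rcases S.eq_empty_or_nonempty with h0 | ⟨b₀, hb₀⟩
  · subst h0; simp
  obtain ⟨-, -, u₀, -, -, -, -⟩ := hS b₀ hb₀
  have hV : Nonempty V := ⟨u₀⟩
  have hS' : ∀ b ∈ S, ∃ u v, g u = a ∧ g v = b ∧ G.Adj u v := fun b hb => (hS b hb).2.2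
  choose! u v hu hv hadj using hS'
  have hne : ∀ b ∈ S, ∀ b' ∈ S, b ≠ b' → s(u b, v b) ≠ s(u b', v b') := by
    intro b hb b' hb' hbb h
    rw [Sym2.eq_iff] at h
    rcases h with ⟨-, h⟩ | ⟨h, -⟩
    · apply hbb
      rw [← hv b hb, ← hv b' hb', h]
    · apply (hS b' hb').1
      rw [← hv b' hb', ← h, hu b hb]
  have hle := lev_le m q g a
  rcases hle.eq_or_lt with hm | hm
  · have h1 : S.card ≤ c := by
      refine long_card H hc S u v 0 hadj hne ?_ ?_
      · intro b hb b' hb'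
        have h2 := lev_spec H g a (hu b hb) (hu b' hb')
        rw [hm] at h2
        rw [H.sep _ _ h2]
        simp
      · intro b hb
        simp
    omega
  · obtain ⟨δ, hδ⟩ : ∃ δ : ℝ, δ = d * ((2 : ℝ) ^ (lev m q g a))⁻¹ := ⟨_, rfl⟩
    have hd : ∀ b ∈ S, ∀ b' ∈ S, ‖q (u b) - q (u b')‖ ≤ δ := by
      intro b hb b' hb'
      rw [hδ]
      exact norm_le_of_cell (lev_spec H g a (hu b hb) (hu b' hb'))
    classical
    have h1 : (S.filter fun b => 2 * δ ≤ ‖q (v b) - q (u b)‖).card ≤ c := by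
      refine long_card H hc _ u v δ ?_ ?_ ?_ ?_
      · intro b hb
        exact hadj b (mem_filter.1 hb).1
      · intro b hb b' hb'
        exact hne b (mem_filter.1 hb).1 b' (mem_filter.1 hb').1
      · intro b hb b' hb'
        exact hd b (mem_filter.1 hb).1 b' (mem_filter.1 hb').1
      · intro b hb
        exact (mem_filter.1 hb).2
    have hw : ∀ b ∈ S, ∃ w, g w = b ∧ cell (lev m q g a + 1) (q w) ≠
        cell (lev m q g a + 1) (q (v b)) := by
      intro b hb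
      obtain ⟨x, y, hx, hy, hxy⟩ := lev_not (q := q) (g := g) (a := b) (j := lev m q g a + 1) (m := m)
        (Nat.lt_succ_of_le (hS b hb).2.1) hm
      by_cases h2 : cell (lev m q g a + 1) (q x) = cell (lev m q g a + 1) (q (v b))
      · exact ⟨y, hy, fun h3 => hxy (h2.trans h3.symm)⟩
      · exact ⟨x, hx, h2⟩
    choose! w hw1 hw2 using hw
    have h2 : (S.filter fun b => ¬ 2 * δ ≤ ‖q (v b) - q (u b)‖).card ≤ 2 * (12 * d + 3) ^ d := by
      refine short_card H hm g hg _ v w (q (u b₀)) ?_ ?_ ?_ ?_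
      · intro b hb
        exact hv b (mem_filter.1 hb).1
      · intro b hb
        exact hw1 b (mem_filter.1 hb).1
      · intro b hb
        exact hw2 b (mem_filter.1 hb).1
      · intro b hb
        rw [← hδ]
        have h3 := hd b (mem_filter.1 hb).1 b₀ hb₀
        have h4 := (mem_filter.1 hb).2
        have h5 : ‖q (v b) - q (u b₀)‖ ≤ ‖q (v b) - q (u b)‖ + ‖q (u b) - q (u b₀)‖ := by
          have := norm_add_le (q (v b) - q (u b)) (q (u b) - q (u b₀))
          rwa [sub_add_sub_cancel] at this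
        push Not at h4
        linarith
    have h3 := Finset.card_filter_add_card_filter_not (s := S) (fun b => 2 * δ ≤ ‖q (v b) - q (u b)‖)
    omega

open Classical in
/-- the adjacency relation in terms of the ranks -/
noncomputable def adjm {V : Type} [Fintype V] (r : V → ℕ) (G : SimpleGraph V) : Finset (ℕ × ℕ) :=
  ((Finset.univ : Finset (V × V)).filter fun p => G.Adj p.1 p.2).image fun p => (r p.1, r p.2)

open Classical in
theorem mem_adjm {V : Type} [Fintype V] {r : V → ℕ} {G : SimpleGraph V} {p : ℕ × ℕ} :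
    p ∈ adjm r G ↔ ∃ u v, G.Adj u v ∧ r u = p.1 ∧ r v = p.2 := by
  unfold adjm
  simp only [mem_image, mem_filter, mem_univ, true_and, Prod.exists]
  constructor
  · rintro ⟨u, v, h, h2⟩
    exact ⟨u, v, h, congrArg Prod.fst h2, congrArg Prod.snd h2⟩
  · rintro ⟨u, v, h, h2, h3⟩
    exact ⟨u, v, h, Prod.ext h2 h3⟩

/-- **the adjacency relation has sparse quotients** -/
theorem lin_of {d m N : ℕ} {V : Type} [Fintype V] {q : V → EuclideanSpace ℝ (Fin d)} {r : V → ℕ}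
    {G : SimpleGraph V} (H : Dat d m N V q r G) {c : ℕ}
    (hc : ∀ (S : Finset ℕ) (ω : ℕ → EuclideanSpace ℝ (Fin d)),
    (∀ b ∈ S, ‖ω b‖ ≤ 1) → (∀ b ∈ S, ∀ b' ∈ S, b ≠ b' → 1 / 2 ≤ ‖ω b - ω b'‖) → S.card ≤ c) :
    adjm r G ∈ cls (1 + 2 * (c + 2 * (12 * d + 3) ^ d)) N := by
  classical
  rw [mem_cls]
  constructor
  · intro p hp
    obtain ⟨u, v, -, h2, h3⟩ := mem_adjm.1 hp
    rw [mem_product, mem_range, mem_range, ← h2, ← h3]
    exact ⟨H.lt u, H.lt v⟩
  · intro K f hf1 hf2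
    obtain ⟨g, hgd⟩ : ∃ g : V → ℕ, g = fun v => f (r v) := ⟨_, rfl⟩
    have hg : ∀ u v, r u ≤ r v → g u ≤ g v := by
      intro u v huv
      rw [hgd]
      exact hf1 huv
    have hgK : ∀ u, g u ∈ range K := by
      intro u
      rw [hgd, mem_range]
      exact hf2 _ (H.lt u)
    obtain ⟨S, hSd⟩ : ∃ S : ℕ → Finset ℕ, S = fun a => (range K).filter fun b => b ≠ a ∧
      lev m q g b ≤ lev m q g a ∧ ∃ u v, g u = a ∧ g v = b ∧ G.Adj u v := ⟨_, rfl⟩
    have hS : ∀ a b, b ∈ S a ↔ b ∈ range K ∧ b ≠ a ∧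
        lev m q g b ≤ lev m q g a ∧ ∃ u v, g u = a ∧ g v = b ∧ G.Adj u v := by
      intro a b
      rw [hSd]
      exact mem_filter
    have hcard : ∀ a, (S a).card ≤ c + 2 * (12 * d + 3) ^ d := by
      intro a
      exact block_card H hc g hg a (S a) fun b hb => ((hS a b).1 hb).2
    have hsub : (adjm r G).image (Prod.map f f) ⊆ (range K).image (fun a => (a, a)) ∪
        ((range K).biUnion (fun a => (S a).image fun b => (a, b)) ∪
        (range K).biUnion (fun a => (S a).image fun b => (b, a))) := by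
      intro p hp
      obtain ⟨p', hp', rfl⟩ := mem_image.1 hp
      obtain ⟨u, v, huv, h2, h3⟩ := mem_adjm.1 hp'
      have e : Prod.map f f p' = (g u, g v) := by
        rw [hgd]
        simp only [Prod.map, h2, h3]
      rw [e]
      by_cases h4 : g u = g v
      · apply mem_union_left
        rw [h4]
        exact mem_image_of_mem _ (hgK v)
      · apply mem_union_right
        rcases le_total (lev m q g (g v)) (lev m q g (g u)) with h5 | h5
        · apply mem_union_left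
          rw [mem_biUnion]
          refine ⟨g u, hgK u, mem_image_of_mem _ ?_⟩
          rw [hS]
          exact ⟨hgK v, fun h => h4 h.symm, h5, u, v, rfl, rfl, huv⟩
        · apply mem_union_right
          rw [mem_biUnion]
          refine ⟨g v, hgK v, ?_⟩
          rw [mem_image]
          refine ⟨g u, ?_, rfl⟩
          rw [hS]
          exact ⟨hgK u, h4, h5, v, u, rfl, rfl, huv.symm⟩
    have c1 : ((range K).image (fun a => (a, a))).card ≤ K := by
      refine card_image_le.trans ?_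
      rw [card_range]
    have c2 : ((range K).biUnion (fun a => (S a).image fun b => (a, b))).card ≤
        K * (c + 2 * (12 * d + 3) ^ d) := by
      have := Finset.card_biUnion_le_card_mul (range K) (fun a => (S a).image fun b => (a, b))
        (c + 2 * (12 * d + 3) ^ d) fun a _ => card_image_le.trans (hcard a)
      rwa [card_range] at this
    have c3 : ((range K).biUnion (fun a => (S a).image fun b => (b, a))).card ≤
        K * (c + 2 * (12 * d + 3) ^ d) := by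
      have := Finset.card_biUnion_le_card_mul (range K) (fun a => (S a).image fun b => (b, a))
        (c + 2 * (12 * d + 3) ^ d) fun a _ => card_image_le.trans (hcard a)
      rwa [card_range] at this
    calc ((adjm r G).image (Prod.map f f)).card ≤ _ := card_le_card hsub
      _ ≤ K + (K * (c + 2 * (12 * d + 3) ^ d) + K * (c + 2 * (12 * d + 3) ^ d)) :=
        (card_union_le _ _).trans (add_le_add c1 ((card_union_le _ _).trans (add_le_add c2 c3)))
      _ = (1 + 2 * (c + 2 * (12 * d + 3) ^ d)) * K := by ring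

end Pool.Agent.N385.ST
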