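import Mathlib
import Pool.Agent.N385.ST.Pack

/-!
# The Morton order (helper385)
-/

set_option autoImplicit false

namespace Pool.Agent.N385.ST

open Finset

theorem floor_half {a b : ℝ} (h : ⌊2 * a⌋ = ⌊2 * b⌋) : ⌊a⌋ = ⌊b⌋ := by
  have key : ∀ a : ℝ, ⌊a⌋ = ⌊2 * a⌋ / 2 := by
    intro a
    have h1 : 2 * ⌊a⌋ ≤ ⌊2 * a⌋ := by
      rw [Int.le_floor]
      push_cast
      have := Int.floor_le a
      linarith
    have h2 : ⌊2 * a⌋ < 2 * ⌊a⌋ + 2 := by
      rw [Int.floor_lt]
      push_cast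
      have := Int.lt_floor_add_one a
      linarith
    omega
  rw [key a, key b, h]

theorem cell_succ {d j : ℕ} {x y : EuclideanSpace ℝ (Fin d)} (h : cell (j + 1) x = cell (j + 1) y) :
    cell j x = cell j y := by
  funext i
  have h1 : ⌊(2 : ℝ) ^ (j + 1) * x i⌋ = ⌊(2 : ℝ) ^ (j + 1) * y i⌋ := congrFun h i
  rw [pow_succ, mul_comm ((2 : ℝ) ^ j) 2, mul_assoc, mul_assoc] at h1
  exact floor_half h1

theorem cell_mono {d j i : ℕ} (hij : i ≤ j) {x y : EuclideanSpace ℝ (Fin d)}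
    (h : cell j x = cell j y) : cell i x = cell i y := by
  induction j, hij using Nat.le_induction with
  | base => exact h
  | succ n _ ih => exact ih (cell_succ h)

/-- the key of the Morton order -/
noncomputable def key {d : ℕ} (m : ℕ) (x : EuclideanSpace ℝ (Fin d)) :
    Lex (Fin (m + 1) → Lex (Fin d → ℤ)) :=
  toLex fun j => toLex (cell (j : ℕ) x)

theorem lex_cvx {n : ℕ} {β : Type} [LinearOrder β] (x y z : Lex (Fin n → β)) (hxy : x ≤ y)
    (hyz : y ≤ z) (j : Fin n) (h : ∀ i ≤ j, ofLex x i = ofLex z i) :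
    ∀ i ≤ j, ofLex y i = ofLex x i := by
  rcases hxy.eq_or_lt with e | hlt
  · intro i _
    rw [e]
  rcases hyz.eq_or_lt with e | hlt2
  · intro i hi
    rw [e, h i hi]
  obtain ⟨i0, h1, h2⟩ : ∃ i, (∀ j < i, ofLex x j = ofLex y j) ∧ ofLex x i < ofLex y i := hlt
  obtain ⟨i1, h3, h4⟩ : ∃ i, (∀ j < i, ofLex y j = ofLex z j) ∧ ofLex y i < ofLex z i := hlt2
  by_cases hi0 : i0 ≤ j
  · exfalso
    rcases lt_trichotomy i1 i0 with h5 | h5 | h5
    · have e1 := h1 i1 h5
      have e2 := h i1 (h5.le.trans hi0)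
      rw [← e1, e2] at h4
      exact lt_irrefl _ h4
    · subst h5
      have e2 := h i1 hi0
      rw [← e2] at h4
      exact lt_asymm h2 h4
    · have e1 := h3 i0 h5
      have e2 := h i0 hi0
      rw [e1, ← e2] at h2
      exact lt_irrefl _ h2
  · push Not at hi0
    intro i hi
    exact (h1 i (hi.trans_lt hi0)).symm

theorem key_cvx {d m : ℕ} (x y z : EuclideanSpace ℝ (Fin d)) (hxy : key m x ≤ key m y)
    (hyz : key m y ≤ key m z) {j : ℕ} (hj : j ≤ m) (h : cell j x = cell j z) :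
    cell j y = cell j x := by
  have h1 := lex_cvx (key m x) (key m y) (key m z) hxy hyz ⟨j, Nat.lt_succ_of_le hj⟩ (by
    intro i hi
    have h2 : (i : ℕ) ≤ j := hi
    exact congrArg toLex (cell_mono h2 h))
  exact toLex.injective (h1 ⟨j, Nat.lt_succ_of_le hj⟩ le_rfl)

theorem key_inj {d m : ℕ} {x y : EuclideanSpace ℝ (Fin d)} (h : key m x = key m y) :
    cell m x = cell m y := by
  have h1 := congrFun (congrArg ofLex h) ⟨m, Nat.lt_succ_self m⟩
  exact toLex.injective h1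

/-- normalisation of a finite set -/
theorem normal {d : ℕ} (X : Set (EuclideanSpace ℝ (Fin d))) (hX : X.Finite) :
    ∃ (T : EuclideanSpace ℝ (Fin d) → EuclideanSpace ℝ (Fin d)) (L : ℝ) (m : ℕ), 0 < L ∧
      (∀ x y, ‖T x - T y‖ = L * ‖x - y‖) ∧
      (∀ x ∈ X, ∀ y ∈ X, cell 0 (T x) = cell 0 (T y)) ∧
      ∀ x ∈ X, ∀ y ∈ X, cell m (T x) = cell m (T y) → x = y := by
  obtain ⟨M, hM0, hM⟩ := hX.isBounded.exists_pos_norm_le
  obtain ⟨L, hL⟩ : ∃ L : ℝ, L = (2 * M + 1)⁻¹ := ⟨_, rfl⟩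
  have hL0 : 0 < L := by rw [hL]; positivity
  obtain ⟨e, he⟩ : ∃ e : EuclideanSpace ℝ (Fin d), ∀ i, e i = M :=
    ⟨WithLp.toLp 2 (fun _ => M), fun i => rfl⟩
  obtain ⟨T, hT⟩ : ∃ T : EuclideanSpace ℝ (Fin d) → EuclideanSpace ℝ (Fin d),
    T = fun x => L • (x + e) := ⟨_, rfl⟩
  have hTi : ∀ x i, T x i = L * (x i + M) := by
    intro x i
    rw [hT]
    simp only [PiLp.smul_apply, PiLp.add_apply, he, smul_eq_mul]
  have hev : ∀ᶠ m : ℕ in Filter.atTop, ∀ x ∈ X, ∀ y ∈ X, x ≠ y → ∃ i, 1 ≤ 2 ^ m * |T x i - T y i| := by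
    rw [Filter.eventually_all_finite hX]
    intro x hx
    rw [Filter.eventually_all_finite hX]
    intro y hy
    by_cases hxy : x = y
    · exact Filter.Eventually.of_forall fun m h => absurd hxy h
    · have h1 : ∃ i, x i ≠ y i := by
        by_contra hcon
        push Not at hcon
        exact hxy (PiLp.ext hcon)
      obtain ⟨i, hi⟩ := h1
      have h2 : 0 < |T x i - T y i| := by
        rw [hTi, hTi, abs_pos, ← mul_sub]
        refine mul_ne_zero hL0.ne' ?_
        rw [add_sub_add_right_eq_sub]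
        exact sub_ne_zero.2 hi
      have h3 : Filter.Tendsto (fun m : ℕ => (2 : ℝ) ^ m * |T x i - T y i|) Filter.atTop Filter.atTop :=
        (tendsto_pow_atTop_atTop_of_one_lt (by norm_num)).atTop_mul_const h2
      filter_upwards [h3.eventually_ge_atTop 1] with m hm _
      exact ⟨i, hm⟩
  obtain ⟨m, hm⟩ := hev.exists
  refine ⟨T, L, m, hL0, ?_, ?_, ?_⟩
  · intro x y
    rw [hT]
    simp only
    rw [← smul_sub, add_sub_add_right_eq_sub, norm_smul, Real.norm_of_nonneg hL0.le]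
  · have h0 : ∀ x ∈ X, cell 0 (T x) = fun _ => 0 := by
      intro x hx
      funext i
      unfold cell
      rw [Int.floor_eq_zero_iff, pow_zero, one_mul, hTi]
      have h1 : |x i| ≤ M := by
        have := abs_coord_le x 0 i
        simp only [PiLp.zero_apply, sub_zero] at this
        exact this.trans (hM x hx)
      have h2 := abs_le.1 h1
      constructor
      · have : 0 ≤ x i + M := by linarith [h2.1]
        positivity
      · rw [hL, inv_mul_lt_iff₀ (by positivity)]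
        linarith [h2.2]
    intro x hx y hy
    rw [h0 x hx, h0 y hy]
  · intro x hx y hy h
    by_contra hne
    obtain ⟨i, hi⟩ := hm x hx y hy hne
    have h1 : ⌊(2 : ℝ) ^ m * T x i⌋ = ⌊(2 : ℝ) ^ m * T y i⌋ := congrFun h i
    have h2 := Int.abs_sub_lt_one_of_floor_eq_floor h1
    rw [← mul_sub, abs_mul, abs_of_pos (by positivity : (0 : ℝ) < 2 ^ m)] at h2
    linarith

open Classical in
/-- the rank in the Morton order -/
noncomputable def rk {d : ℕ} (m : ℕ) {V : Type} [Fintype V] (q : V → EuclideanSpace ℝ (Fin d))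
    (v : V) : ℕ :=
  (Finset.univ.filter fun w => key m (q w) < key m (q v)).card

theorem rk_lt {d : ℕ} {m : ℕ} {V : Type} [Fintype V] {q : V → EuclideanSpace ℝ (Fin d)} {u v : V}
    (h : key m (q u) < key m (q v)) : rk m q u < rk m q v := by
  unfold rk
  apply Finset.card_lt_card
  rw [Finset.ssubset_iff_of_subset]
  · refine ⟨u, ?_, ?_⟩
    · simpa using h
    · simp only [mem_filter, mem_univ, true_and]
      exact lt_irrefl _
  · intro w hw
    simp only [mem_filter, mem_univ, true_and] at hw ⊢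
    exact hw.trans h

theorem rk_lt_iff {d : ℕ} {m : ℕ} {V : Type} [Fintype V] {q : V → EuclideanSpace ℝ (Fin d)} {u v : V} :
    rk m q u < rk m q v ↔ key m (q u) < key m (q v) := by
  refine ⟨fun h => ?_, rk_lt⟩
  by_contra hcon
  rcases (not_lt.1 hcon).eq_or_lt with h1 | h1
  · unfold rk at h
    rw [h1] at h
    exact lt_irrefl _ h
  · exact lt_asymm h (rk_lt h1)

theorem dat_of {d : ℕ} {V : Type} [Fintype V] {p : V → EuclideanSpace ℝ (Fin d)}
    {G : SimpleGraph V} {X : Set (EuclideanSpace ℝ (Fin d))}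
    {T : EuclideanSpace ℝ (Fin d) → EuclideanSpace ℝ (Fin d)} {L : ℝ} {m : ℕ} (hL : 0 < L)
    (hT1 : ∀ x y, ‖T x - T y‖ = L * ‖x - y‖)
    (hT2 : ∀ x ∈ X, ∀ y ∈ X, cell 0 (T x) = cell 0 (T y))
    (hT3 : ∀ x ∈ X, ∀ y ∈ X, cell m (T x) = cell m (T y) → x = y)
    (hX : ∀ v, p v ∈ X) (hp : Function.Injective p)
    (hex : ∀ u v u' v', G.Adj u v → G.Adj u' v' → s(u, v) ≠ s(u', v') → ‖p u - p u'‖ < ‖p v - p u‖ →
      ‖p v - p u‖ ≤ ‖p v - p v'‖) :
    Dat d m (Fintype.card V) V (fun v => T (p v)) (rk m fun v => T (p v)) G := by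
  have hinj : Function.Injective (rk m fun v => T (p v)) := by
    intro u v h
    have h1 : ¬ key m (T (p u)) < key m (T (p v)) := fun h2 =>
      (rk_lt (q := fun v => T (p v)) h2).ne h
    have h2 : ¬ key m (T (p v)) < key m (T (p u)) := fun h2 =>
      (rk_lt (q := fun v => T (p v)) h2).ne h.symm
    have h3 := le_antisymm (not_lt.1 h2) (not_lt.1 h1)
    exact hp (hT3 _ (hX u) _ (hX v) (key_inj h3))
  have hle : ∀ u v, rk m (fun v => T (p v)) u ≤ rk m (fun v => T (p v)) v →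
      key m (T (p u)) ≤ key m (T (p v)) := by
    intro u v h
    by_contra hcon
    exact absurd h (not_le.2 (rk_lt (q := fun v => T (p v)) (not_le.1 hcon)))
  refine ⟨hinj, ?_, ?_, ?_, ?_, ?_⟩
  · intro v
    unfold rk
    refine Finset.card_lt_univ_of_notMem (x := v) ?_
    simp only [mem_filter, mem_univ, true_and]
    exact lt_irrefl _
  · intro j hj u v w huv hvw h
    exact key_cvx _ _ _ (hle u v huv) (hle v w hvw) hj h
  · intro u v
    exact hT2 _ (hX u) _ (hX v)
  · intro u v h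
    exact hp (hT3 _ (hX u) _ (hX v) h)
  · intro u v u' v' h1 h2 h3 h4 _
    rw [hT1, hT1] at h4
    rw [hT1, hT1]
    exact mul_le_mul_of_nonneg_left (hex u v u' v' h1 h2 h3 (lt_of_mul_lt_mul_left h4 hL.le)) hL.le

end Pool.Agent.N385.ST
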