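import Mathlib

/-!
# Steiner trees: the exchange property (helper385)
-/

set_option autoImplicit false

namespace Pool.Agent.N385.ST

open MeasureTheory Set

variable {V : Type} {d : ℕ}

/-- the union of the edges of a graph drawn with straight edges -/
def carrier (G : SimpleGraph V) (p : V → EuclideanSpace ℝ (Fin d)) : Set (EuclideanSpace ℝ (Fin d)) :=
  ⋃ (a : V) (b : V) (_ : G.Adj a b), segment ℝ (p a) (p b)

theorem seg_sub {G : SimpleGraph V} (p : V → EuclideanSpace ℝ (Fin d)) {a b : V} (h : G.Adj a b) :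
    segment ℝ (p a) (p b) ⊆ carrier G p := by
  intro x hx
  simp only [carrier, mem_iUnion]
  exact ⟨a, b, h, hx⟩

theorem mem_carrier {G : SimpleGraph V} {p : V → EuclideanSpace ℝ (Fin d)}
    {x : EuclideanSpace ℝ (Fin d)} :
    x ∈ carrier G p ↔ ∃ a b, G.Adj a b ∧ x ∈ segment ℝ (p a) (p b) := by
  simp only [carrier, mem_iUnion, exists_prop]

theorem exists_nbr [Nontrivial V] {G : SimpleGraph V} (hG : G.Connected) (a : V) : ∃ b, G.Adj a b := by
  obtain ⟨b, hb⟩ := exists_ne a
  obtain ⟨w⟩ := hG.preconnected a b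
  cases w with
  | nil => exact absurd rfl hb
  | cons h _ => exact ⟨_, h⟩

theorem seg_compact (x y : EuclideanSpace ℝ (Fin d)) : IsCompact (segment ℝ x y) := by
  rw [segment_eq_image]
  exact isCompact_Icc.image (by fun_prop)

theorem carrier_compact [Finite V] (G : SimpleGraph V) (p : V → EuclideanSpace ℝ (Fin d)) :
    IsCompact (carrier G p) :=
  isCompact_iUnion fun _ => isCompact_iUnion fun _ => isCompact_iUnion fun _ => seg_compact _ _

theorem joined_of_walk {G : SimpleGraph V} (p : V → EuclideanSpace ℝ (Fin d))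
    (hm : ∀ a, p a ∈ carrier G p) {a b : V} (w : G.Walk a b) : JoinedIn (carrier G p) (p a) (p b) := by
  induction w with
  | nil => exact JoinedIn.refl (hm _)
  | cons h _ ih => exact (JoinedIn.of_segment_subset (seg_sub p h)).trans ih

theorem vertex_mem [Nontrivial V] {G : SimpleGraph V} (hG : G.Connected)
    (p : V → EuclideanSpace ℝ (Fin d)) (a : V) : p a ∈ carrier G p := by
  obtain ⟨b, hb⟩ := exists_nbr hG a
  exact seg_sub p hb (left_mem_segment ℝ _ _)

theorem carrier_connected [Nontrivial V] {G : SimpleGraph V} (hG : G.Connected)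
    (p : V → EuclideanSpace ℝ (Fin d)) : IsConnected (carrier G p) := by
  obtain ⟨a, -, -⟩ := exists_pair_ne V
  apply IsPathConnected.isConnected
  refine ⟨p a, vertex_mem hG p a, fun {y} hy => ?_⟩
  obtain ⟨b, c, hbc, hy2⟩ := mem_carrier.1 hy
  obtain ⟨w⟩ := hG.preconnected a b
  refine (joined_of_walk p (vertex_mem hG p) w).trans (JoinedIn.of_segment_subset ?_)
  exact ((convex_segment (p b) (p c)).segment_subset (left_mem_segment ℝ _ _) hy2).trans (seg_sub p hbc)

theorem carrier_lt_top [Finite V] (G : SimpleGraph V) (p : V → EuclideanSpace ℝ (Fin d)) :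
    μH[1] (carrier G p) < ⊤ := by
  have := Fintype.ofFinite V
  have h : μH[1] (carrier G p) ≤ ∑ a : V, ∑ b : V, edist (p a) (p b) := by
    refine (measure_iUnion_fintype_le _ _).trans (Finset.sum_le_sum fun a _ => ?_)
    refine (measure_iUnion_fintype_le _ _).trans (Finset.sum_le_sum fun b _ => ?_)
    refine (measure_mono (iUnion_subset fun _ => subset_rfl)).trans ?_
    exact (hausdorffMeasure_segment _ _).le
  refine h.trans_lt ?_
  refine ENNReal.sum_lt_top.2 fun a _ => ENNReal.sum_lt_top.2 fun b _ => edist_lt_top _ _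

/-- the exchange property -/
theorem exchange [Finite V] [Nontrivial V] {G : SimpleGraph V} {p : V → EuclideanSpace ℝ (Fin d)}
    {A : Set (EuclideanSpace ℝ (Fin d))} (hA : A ⊆ range p)
    (hmin : ∀ K, A ⊆ K → IsCompact K → IsConnected K → μH[1] (carrier G p) ≤ μH[1] K)
    (hemb : ∀ a b a' b', G.Adj a b → G.Adj a' b' → s(a, b) ≠ s(a', b') →
      segment ℝ (p a) (p b) ∩ segment ℝ (p a') (p b') ⊆ {p a', p b'})
    {u v w x : V} (huv : G.Adj u v)
    (hconn : (G.deleteEdges {s(u, v)} ⊔ SimpleGraph.edge w x).Connected) :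
    dist (p u) (p v) ≤ dist (p w) (p x) := by
  obtain ⟨H, hH⟩ : ∃ H, H = G.deleteEdges {s(u, v)} := ⟨_, rfl⟩
  rw [← hH] at hconn
  have hHadj : ∀ a b, H.Adj a b ↔ G.Adj a b ∧ s(a, b) ≠ s(u, v) := by
    intro a b
    rw [hH, SimpleGraph.deleteEdges_adj, mem_singleton_iff]
  have e1 : carrier G p = carrier H p ∪ segment ℝ (p u) (p v) := by
    ext y
    rw [mem_union, mem_carrier, mem_carrier]
    constructor
    · rintro ⟨a, b, hab, hy⟩
      by_cases h : s(a, b) = s(u, v)
      · right
        rcases Sym2.eq_iff.1 h with ⟨rfl, rfl⟩ | ⟨rfl, rfl⟩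
        · exact hy
        · rwa [segment_symm]
      · left
        exact ⟨a, b, (hHadj a b).2 ⟨hab, h⟩, hy⟩
    · rintro (⟨a, b, hab, hy⟩ | hy)
      · exact ⟨a, b, ((hHadj a b).1 hab).1, hy⟩
      · exact ⟨u, v, huv, hy⟩
  have e2 : carrier (H ⊔ SimpleGraph.edge w x) p ⊆ carrier H p ∪ segment ℝ (p w) (p x) := by
    intro y hy
    obtain ⟨a, b, hab, hy2⟩ := mem_carrier.1 hy
    rw [SimpleGraph.sup_adj, SimpleGraph.edge_adj] at hab
    rcases hab with h | ⟨⟨rfl, rfl⟩ | ⟨rfl, rfl⟩, -⟩
    · left
      exact seg_sub p h hy2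
    · right
      exact hy2
    · right
      rwa [segment_symm]
  have e3 : μH[1] (carrier G p) = μH[1] (carrier H p) + edist (p u) (p v) := by
    rw [e1, ← hausdorffMeasure_segment]
    refine measure_union₀ (seg_compact _ _).measurableSet.nullMeasurableSet ?_
    have h1 : carrier H p ∩ segment ℝ (p u) (p v) ⊆ {p u, p v} := by
      rintro y ⟨hy1, hy2⟩
      obtain ⟨a, b, hab, hy3⟩ := mem_carrier.1 hy1
      obtain ⟨h2, h3⟩ := (hHadj a b).1 hab
      exact hemb a b u v h2 huv h3 ⟨hy3, hy2⟩
    have h2 : μH[1] ({p u, p v} : Set (EuclideanSpace ℝ (Fin d))) = 0 := by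
      have := Measure.nullSingletonClass_hausdorff (EuclideanSpace ℝ (Fin d)) (one_pos : (0 : ℝ) < 1)
      exact (Set.toFinite _).measure_zero _
    exact measure_mono_null h1 h2
  have e4 : μH[1] (carrier (H ⊔ SimpleGraph.edge w x) p) ≤
      μH[1] (carrier H p) + edist (p w) (p x) := by
    refine (measure_mono e2).trans ((measure_union_le _ _).trans ?_)
    rw [hausdorffMeasure_segment]
  have e5 := hmin (carrier (H ⊔ SimpleGraph.edge w x) p)
    (hA.trans (range_subset_iff.2 fun a => vertex_mem hconn p a)) (carrier_compact _ _)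
    (carrier_connected hconn p)
  rw [e3] at e5
  have e6 := e5.trans e4
  have e7 : edist (p u) (p v) ≤ edist (p w) (p x) :=
    (ENNReal.add_le_add_iff_left (carrier_lt_top H p).ne).1 e6
  rw [edist_dist, edist_dist] at e7
  exact (ENNReal.ofReal_le_ofReal_iff dist_nonneg).1 e7

theorem reach_or {G : SimpleGraph V} (hG : G.Connected) {u v : V} (w : V) :
    (G.deleteEdges {s(u, v)}).Reachable w u ∨ (G.deleteEdges {s(u, v)}).Reachable w v := by
  obtain ⟨p⟩ := hG.preconnected w u
  have key : ∀ (x y : V) (_ : G.Walk x y), ((G.deleteEdges {s(u, v)}).Reachable y u ∨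
      (G.deleteEdges {s(u, v)}).Reachable y v) → ((G.deleteEdges {s(u, v)}).Reachable x u ∨
      (G.deleteEdges {s(u, v)}).Reachable x v) := by
    intro x y p
    induction p with
    | nil => exact id
    | @cons a b c h p ih =>
      intro hy
      by_cases e : s(a, b) = s(u, v)
      · rcases Sym2.eq_iff.1 e with ⟨rfl, rfl⟩ | ⟨rfl, rfl⟩
        · exact Or.inl (SimpleGraph.Reachable.refl _)
        · exact Or.inr (SimpleGraph.Reachable.refl _)
      · have h1 : (G.deleteEdges {s(u, v)}).Adj a b := by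
          rw [SimpleGraph.deleteEdges_adj]
          exact ⟨h, e⟩
        exact (ih hy).imp (fun h2 => h1.reachable.trans h2) fun h2 => h1.reachable.trans h2
  exact key w u p (Or.inl (SimpleGraph.Reachable.refl _))

theorem conn_edge {G : SimpleGraph V} (hG : G.Connected) {u v w x : V}
    (hw : (G.deleteEdges {s(u, v)}).Reachable w u) (hx : (G.deleteEdges {s(u, v)}).Reachable x v) :
    (G.deleteEdges {s(u, v)} ⊔ SimpleGraph.edge w x).Connected := by
  obtain ⟨H, hH⟩ : ∃ H, H = G.deleteEdges {s(u, v)} ⊔ SimpleGraph.edge w x := ⟨_, rfl⟩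
  rw [← hH]
  have hle : G.deleteEdges {s(u, v)} ≤ H := by rw [hH]; exact le_sup_left
  have hwx : H.Reachable w x := by
    by_cases h : w = x
    · rw [h]
    · have h1 : H.Adj w x := by
        rw [hH, SimpleGraph.sup_adj, SimpleGraph.edge_adj]
        exact Or.inr ⟨Or.inl ⟨rfl, rfl⟩, h⟩
      exact h1.reachable
  have huv : H.Reachable u v := ((hw.mono hle).symm.trans hwx).trans (hx.mono hle)
  have hu : ∀ y, H.Reachable y u := by
    intro y
    rcases reach_or hG (u := u) (v := v) y with h | h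
    · exact h.mono hle
    · exact (h.mono hle).trans huv.symm
  have := hG.nonempty
  exact ⟨fun y z => (hu y).trans (hu z).symm⟩

/-- the exchange property in the form used for packing -/
theorem exch {G : SimpleGraph V} (hG : G.Connected) {p : V → EuclideanSpace ℝ (Fin d)}
    (hex : ∀ u v w x : V, G.Adj u v → (G.deleteEdges {s(u, v)} ⊔ SimpleGraph.edge w x).Connected →
      dist (p u) (p v) ≤ dist (p w) (p x)) (u v u' v' : V) (huv : G.Adj u v) (huv' : G.Adj u' v')
    (hne : s(u, v) ≠ s(u', v')) (hlt : ‖p u - p u'‖ < ‖p v - p u‖) :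
    ‖p v - p u‖ ≤ ‖p v - p v'‖ := by
  have h1 : (G.deleteEdges {s(u, v)}).Reachable u' u := by
    rcases reach_or hG (u := u) (v := v) u' with h | h
    · exact h
    · exfalso
      have h2 := hex u v u u' huv (conn_edge hG (SimpleGraph.Reachable.refl _) h)
      rw [dist_eq_norm, dist_eq_norm, norm_sub_rev] at h2
      linarith
  have h2 : (G.deleteEdges {s(u, v)}).Adj v' u' := by
    rw [SimpleGraph.deleteEdges_adj, mem_singleton_iff]
    refine ⟨huv'.symm, fun h => hne ?_⟩
    rw [← h, Sym2.eq_swap]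
  have h3 := hex u v v' v huv (conn_edge hG (h2.reachable.trans h1) (SimpleGraph.Reachable.refl _))
  rw [dist_eq_norm, dist_eq_norm, norm_sub_rev, norm_sub_rev (p v')] at h3
  exact h3

end Pool.Agent.N385.ST
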