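import Mathlib
import Pool.Agent.N385.ST.Morton
import Pool.Agent.N385.ST.Steiner

/-!
# Branching points of Steiner trees in terminal-free balls (helper385)
-/

set_option autoImplicit false

namespace Pool.Agent.N385.ST

open Finset

/-- the packing constant -/
def Pk (d c : ℕ) : Prop := ∀ (ι : Type) (S : Finset ι) (ω : ι → EuclideanSpace ℝ (Fin d)),
    (∀ b ∈ S, ‖ω b‖ ≤ 1) → (∀ b ∈ S, ∀ b' ∈ S, b ≠ b' → 1 / 2 ≤ ‖ω b - ω b'‖) → S.card ≤ c

theorem packT (d : ℕ) : ∃ c : ℕ, 0 < c ∧ Pk d c := by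
  obtain ⟨t, -, ht, hcov⟩ := (isCompact_closedBall (0 : EuclideanSpace ℝ (Fin d)) 1).finite_cover_balls
    (by norm_num : (0 : ℝ) < 1 / 4)
  refine ⟨ht.toFinset.card + 1, Nat.succ_pos _, fun ι S ω h1 h2 => Nat.le_succ_of_le ?_⟩
  have h3 : ∀ b ∈ S, ∃ x ∈ t, dist (ω b) x < 1 / 4 := by
    intro b hb
    have h4 : ω b ∈ Metric.closedBall (0 : EuclideanSpace ℝ (Fin d)) 1 := by
      rw [mem_closedBall_zero_iff]
      exact h1 b hb
    have h5 := hcov h4
    simp only [Set.mem_iUnion, Metric.mem_ball] at h5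
    obtain ⟨x, hx, h6⟩ := h5
    exact ⟨x, hx, h6⟩
  choose! x hx hx2 using h3
  refine card_le_card_of_injOn x (fun b hb => by simpa using hx b hb) ?_
  intro b hb b' hb' hbb
  by_contra hne
  have h4 := h2 b hb b' hb' hne
  have h5 := hx2 b hb
  have h6 := hx2 b' hb'
  have h7 := dist_triangle_right (ω b) (ω b') (x b)
  rw [hbb] at h5
  rw [hbb, dist_eq_norm] at h7
  linarith

/-- the exchange property -/
def Ex {d : ℕ} {V : Type} (G : SimpleGraph V) (p : V → EuclideanSpace ℝ (Fin d)) : Prop :=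
  ∀ u v u' v', G.Adj u v → G.Adj u' v' → s(u, v) ≠ s(u', v') → ‖p u - p u'‖ < ‖p v - p u‖ →
    ‖p v - p u‖ ≤ ‖p v - p v'‖

theorem long_cardT {d c : ℕ} (hc : Pk d c) {V : Type} {G : SimpleGraph V}
    {p : V → EuclideanSpace ℝ (Fin d)} (hp : Function.Injective p) (hex : Ex G p)
    (S : Finset (V × V)) (δ : ℝ) (hadj : ∀ e ∈ S, G.Adj e.1 e.2)
    (hne : ∀ e ∈ S, ∀ e' ∈ S, e ≠ e' → s(e.1, e.2) ≠ s(e'.1, e'.2))
    (hδ : ∀ e ∈ S, ∀ e' ∈ S, ‖p e.1 - p e'.1‖ ≤ δ)
    (hl : ∀ e ∈ S, 2 * δ ≤ ‖p e.2 - p e.1‖) : S.card ≤ c := by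
  have hpos : ∀ e ∈ S, 0 < ‖p e.2 - p e.1‖ := by
    intro e he
    rw [norm_pos_iff, sub_ne_zero]
    intro h
    exact (hadj e he).ne (hp h.symm)
  have key : ∀ e ∈ S, ∀ e' ∈ S, e ≠ e' → ‖p e'.2 - p e'.1‖ ≤ ‖p e.2 - p e.1‖ →
      1 / 2 ≤ ‖‖p e.2 - p e.1‖⁻¹ • (p e.2 - p e.1) - ‖p e'.2 - p e'.1‖⁻¹ • (p e'.2 - p e'.1)‖ := by
    intro e he e' he' hee hle
    refine sep_dir _ _ _ _ δ (hpos e he) (hpos e' he') hle ?_ (hδ e he e' he') (hl e' he')
    refine hex _ _ _ _ (hadj e he) (hadj e' he') (hne e he e' he' hee) ?_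
    have h1 := hδ e he e' he'
    have h2 := hl e' he'
    have h3 := hpos e he
    have h4 := norm_nonneg (p e.1 - p e'.1)
    linarith
  refine hc (V × V) S (fun e => ‖p e.2 - p e.1‖⁻¹ • (p e.2 - p e.1)) ?_ ?_
  · intro e he
    rw [norm_smul, norm_inv, norm_norm, inv_mul_cancel₀ (hpos e he).ne']
  · intro e he e' he' hee
    rcases le_total ‖p e'.2 - p e'.1‖ ‖p e.2 - p e.1‖ with h | h
    · exact key e he e' he' hee h
    · rw [norm_sub_rev]
      exact key e' he' e he hee.symm h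

open Classical in
/-- edges leaving a set of vertices of a forest -/
theorem crossing {V : Type} [Fintype V] {G : SimpleGraph V} (hG : G.IsAcyclic) (P : Finset V)
    (hdeg : ∀ v ∈ P, 3 ≤ (univ.filter fun w => G.Adj v w).card) :
    P.card ≤ (univ.filter fun e : V × V => e.1 ∈ P ∧ e.2 ∉ P ∧ G.Adj e.1 e.2).card := by
  rcases P.eq_empty_or_nonempty with h0 | ⟨v₀, hv₀⟩
  · subst h0; simp
  have hne : Nonempty (P : Set V) := ⟨⟨v₀, hv₀⟩⟩
  obtain ⟨H, hH⟩ : ∃ H : SimpleGraph (P : Set V), H = G.induce (P : Set V) := ⟨_, rfl⟩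
  have hHa : H.IsAcyclic := by rw [hH]; exact hG.induce _
  obtain ⟨T, hHT, -, hT⟩ := (SimpleGraph.connected_top (V := (P : Set V))).exists_isTree_le_of_le_of_isAcyclic
    (le_top : H ≤ ⊤) hHa
  have e1 : H.edgeFinset.card ≤ P.card := by
    have h1 := hT.card_edgeFinset
    have h2 : H.edgeFinset.card ≤ T.edgeFinset.card := card_le_card (SimpleGraph.edgeFinset_mono hHT)
    have h3 : Fintype.card (P : Set V) = P.card := by simp
    omega
  have e2 : ∑ v : (P : Set V), H.degree v = 2 * H.edgeFinset.card := H.sum_degrees_eq_twice_card_edges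
  have e3 : ∀ v : (P : Set V), H.degree v = (P.filter fun w => G.Adj v w).card := by
    intro v
    rw [← SimpleGraph.card_neighborFinset_eq_degree]
    refine Finset.card_bij (fun w _ => (w : V)) ?_ ?_ ?_
    · intro w hw
      rw [SimpleGraph.mem_neighborFinset, hH] at hw
      rw [mem_filter]
      exact ⟨w.2, hw⟩
    · intro w _ w' _ h
      exact Subtype.ext h
    · intro w hw
      rw [mem_filter] at hw
      refine ⟨⟨w, hw.1⟩, ?_, rfl⟩
      rw [SimpleGraph.mem_neighborFinset, hH]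
      exact hw.2
  have e4 : ∑ v ∈ P, (P.filter fun w => G.Adj v w).card = 2 * H.edgeFinset.card := by
    rw [← e2, Finset.sum_congr rfl fun v _ => e3 v]
    exact (Finset.sum_coe_sort P fun v => (P.filter fun w => G.Adj v w).card).symm
  have e5 : ∑ v ∈ P, 3 ≤ ∑ v ∈ P, (univ.filter fun w => G.Adj v w).card := Finset.sum_le_sum hdeg
  have e6 : ∀ v, (univ.filter fun w => G.Adj v w).card = (P.filter fun w => G.Adj v w).card +
      (univ.filter fun w => w ∉ P ∧ G.Adj v w).card := by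
    intro v
    rw [← Finset.card_filter_add_card_filter_not (s := univ.filter fun w => G.Adj v w)
      (fun w => w ∈ P), Finset.filter_filter, Finset.filter_filter]
    congr 1
    · congr 1
      ext w
      simp [and_comm]
    · congr 1
      ext w
      simp [and_comm]
  have e7 : (univ.filter fun e : V × V => e.1 ∈ P ∧ e.2 ∉ P ∧ G.Adj e.1 e.2).card =
      ∑ v ∈ P, (univ.filter fun w => w ∉ P ∧ G.Adj v w).card := by
    rw [← Finset.card_sigma]
    refine Finset.card_bij (fun e _ => ⟨e.1, e.2⟩) ?_ ?_ ?_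
    · intro e he
      simp only [mem_filter, mem_univ, true_and, mem_sigma] at he ⊢
      exact ⟨he.1, he.2⟩
    · intro e _ e' _ h
      simp only [Sigma.mk.injEq, heq_eq_eq] at h
      exact Prod.ext h.1 h.2
    · rintro ⟨a, b⟩ he
      simp only [mem_filter, mem_univ, true_and, mem_sigma] at he
      exact ⟨(a, b), by simpa using he, rfl⟩
  rw [e7]
  have e8 : ∑ v ∈ P, (univ.filter fun w => G.Adj v w).card =
      ∑ v ∈ P, (P.filter fun w => G.Adj v w).card +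
        ∑ v ∈ P, (univ.filter fun w => w ∉ P ∧ G.Adj v w).card := by
    rw [← Finset.sum_add_distrib]
    exact Finset.sum_congr rfl fun v _ => e6 v
  rw [Finset.sum_const, smul_eq_mul] at e5
  omega

open Classical in
/-- the number of the vertices in a ball -/
noncomputable def bb {d : ℕ} {V : Type} [Fintype V] (p : V → EuclideanSpace ℝ (Fin d)) (ρ : ℝ) : ℕ :=
  (univ.filter fun v => ‖p v‖ < ρ).card

open Classical in
theorem step {d c j : ℕ} (hc : Pk d c) {V : Type} [Fintype V] {G : SimpleGraph V}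
    {p : V → EuclideanSpace ℝ (Fin d)} (hp : Function.Injective p) (hG : G.IsAcyclic) (hex : Ex G p)
    (hdeg : ∀ v, ‖p v‖ < 1 → 3 ≤ (univ.filter fun w => G.Adj v w).card) {ρ : ℝ} (hρ : ρ ≤ 1) :
    bb p ρ + c * bb p ρ ≤
      c * (2 ^ (j + 1) + 1) ^ d + c * bb p (ρ + 2 * (d * ((2 : ℝ) ^ j)⁻¹)) := by
  obtain ⟨δ, hδ⟩ : ∃ δ : ℝ, δ = d * ((2 : ℝ) ^ j)⁻¹ := ⟨_, rfl⟩
  have hδ0 : 0 ≤ δ := by rw [hδ]; positivity
  rw [← hδ]
  unfold bb
  obtain ⟨P, hP⟩ : ∃ P : Finset V, P = univ.filter fun v => ‖p v‖ < ρ := ⟨_, rfl⟩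
  obtain ⟨P', hP'⟩ : ∃ P' : Finset V, P' = univ.filter fun v => ‖p v‖ < ρ + 2 * δ := ⟨_, rfl⟩
  rw [← hP, ← hP']
  have mP : ∀ v, v ∈ P ↔ ‖p v‖ < ρ := by intro v; rw [hP]; simp
  have mP' : ∀ v, v ∈ P' ↔ ‖p v‖ < ρ + 2 * δ := by intro v; rw [hP']; simp
  obtain ⟨X, hX⟩ : ∃ X : Finset (V × V), X = univ.filter fun e : V × V =>
    e.1 ∈ P ∧ e.2 ∉ P ∧ G.Adj e.1 e.2 := ⟨_, rfl⟩
  have mX : ∀ e, e ∈ X ↔ e.1 ∈ P ∧ e.2 ∉ P ∧ G.Adj e.1 e.2 := by intro e; rw [hX]; simp
  have h1 : P.card ≤ X.card := by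
    rw [hX]
    exact crossing hG P fun v hv => hdeg v (((mP v).1 hv).trans_le hρ)
  have h2 : (X.filter fun e => 2 * δ ≤ ‖p e.2 - p e.1‖).card ≤ c * (2 ^ (j + 1) + 1) ^ d := by
    have h3 := Finset.card_le_mul_card_image (f := fun e : V × V => cell j (p e.1))
      (X.filter fun e => 2 * δ ≤ ‖p e.2 - p e.1‖) c (by
      intro Q _
      refine long_cardT hc hp hex _ δ ?_ ?_ ?_ ?_
      · intro e he
        rw [mem_filter, mem_filter] at he
        exact ((mX e).1 he.1.1).2.2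
      · intro e he e' he' hee h
        rw [mem_filter, mem_filter] at he he'
        have a1 := (mX e).1 he.1.1
        have a2 := (mX e').1 he'.1.1
        rcases Sym2.eq_iff.1 h with ⟨b1, b2⟩ | ⟨b1, b2⟩
        · exact hee (Prod.ext b1 b2)
        · apply a2.2.1
          rw [← b1]
          exact a1.1
      · intro e he e' he'
        rw [mem_filter] at he he'
        rw [hδ]
        exact norm_le_of_cell (he.2.trans he'.2.symm)
      · intro e he
        rw [mem_filter, mem_filter] at he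
        exact he.1.2)
    refine h3.trans (Nat.mul_le_mul_left _ ?_)
    have h4 : (X.filter fun e => 2 * δ ≤ ‖p e.2 - p e.1‖).image (fun e : V × V => cell j (p e.1)) ⊆
        Fintype.piFinset fun _ : Fin d => Finset.Icc (-(2 : ℤ) ^ j) ((2 : ℤ) ^ j) := by
      intro Q hQ
      obtain ⟨e, he, rfl⟩ := mem_image.1 hQ
      rw [mem_filter] at he
      have a1 := (mP _).1 ((mX e).1 he.1).1
      rw [Fintype.mem_piFinset]
      intro i
      have a2 : |p e.1 i| ≤ 1 := by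
        have := abs_coord_le (p e.1) 0 i
        simp only [PiLp.zero_apply, sub_zero] at this
        linarith
      have a3 := abs_le.1 a2
      have a4 : (0 : ℝ) < 2 ^ j := by positivity
      rw [mem_Icc]
      unfold cell
      constructor
      · rw [Int.le_floor]
        push_cast
        nlinarith [a3.1]
      · have a5 : (⌊(2 : ℝ) ^ j * p e.1 i⌋ : ℝ) ≤ ((2 : ℤ) ^ j : ℤ) := by
          refine (Int.floor_le _).trans ?_
          push_cast
          nlinarith [a3.2]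
        exact_mod_cast a5
    refine (card_le_card h4).trans (le_of_eq ?_)
    rw [Fintype.card_piFinset, Finset.prod_const, Finset.card_univ, Fintype.card_fin, Int.card_Icc]
    congr 1
    have : (2 : ℤ) ^ j + 1 - -(2 : ℤ) ^ j = ((2 ^ (j + 1) + 1 : ℕ) : ℤ) := by
      push_cast
      ring
    rw [this, Int.toNat_natCast]
  have h5 : (X.filter fun e => ¬ 2 * δ ≤ ‖p e.2 - p e.1‖).card ≤ c * (P' \ P).card := by
    have h3 := Finset.card_le_mul_card_image (f := fun e : V × V => e.2)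
      (X.filter fun e => ¬ 2 * δ ≤ ‖p e.2 - p e.1‖) c (by
      intro z _
      obtain ⟨F, hF⟩ : ∃ F, F = (X.filter fun e => ¬ 2 * δ ≤ ‖p e.2 - p e.1‖).filter
        fun e => e.2 = z := ⟨_, rfl⟩
      have mF : ∀ e ∈ F, e.2 = z ∧ G.Adj e.1 e.2 := by
        intro e he
        rw [hF, mem_filter, mem_filter] at he
        exact ⟨he.2, ((mX e).1 he.1.1).2.2⟩
      have h6 : (F.image Prod.swap).card ≤ c := by
        refine long_cardT hc hp hex _ 0 ?_ ?_ ?_ ?_
        · intro e he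
          obtain ⟨e', he', rfl⟩ := mem_image.1 he
          exact (mF e' he').2.symm
        · intro e he e' he' hee h
          obtain ⟨f, hf, rfl⟩ := mem_image.1 he
          obtain ⟨f', hf', rfl⟩ := mem_image.1 he'
          have a1 := mF f hf
          have a2 := mF f' hf'
          rcases Sym2.eq_iff.1 h with ⟨b1, b2⟩ | ⟨b1, b2⟩
          · exact hee (Prod.ext b1 b2)
          · simp only [Prod.fst_swap, Prod.snd_swap] at b1 b2
            have a3 := a2.2
            rw [← b1, a1.1, a2.1] at a3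
            exact G.loopless.irrefl _ a3
        · intro e he e' he'
          obtain ⟨f, hf, rfl⟩ := mem_image.1 he
          obtain ⟨f', hf', rfl⟩ := mem_image.1 he'
          simp only [Prod.fst_swap]
          rw [(mF f hf).1, (mF f' hf').1, sub_self, norm_zero]
        · intro e he
          simp
      rw [Finset.card_image_of_injective _ Prod.swap_injective, hF] at h6
      exact h6)
    refine h3.trans (Nat.mul_le_mul_left _ (card_le_card ?_))
    intro z hz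
    obtain ⟨e, he, rfl⟩ := mem_image.1 hz
    rw [mem_filter] at he
    have a1 := (mX e).1 he.1
    have a2 := he.2
    push Not at a2
    rw [mem_sdiff]
    refine ⟨?_, a1.2.1⟩
    rw [mP']
    have a3 := (mP _).1 a1.1
    have a4 : ‖p e.2‖ ≤ ‖p e.2 - p e.1‖ + ‖p e.1‖ := by
      have := norm_add_le (p e.2 - p e.1) (p e.1)
      rwa [sub_add_cancel] at this
    linarith
  have h6 : (P' \ P).card + P.card = P'.card := by
    apply Finset.card_sdiff_add_card_eq_card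
    intro v hv
    rw [mP] at hv
    rw [mP']
    linarith
  have h7 := Finset.card_filter_add_card_filter_not (s := X) (fun e => 2 * δ ≤ ‖p e.2 - p e.1‖)
  have h8 : c * (P' \ P).card + c * P.card = c * P'.card := by rw [← mul_add, h6]
  omega

theorem bb_mono {d : ℕ} {V : Type} [Fintype V] (p : V → EuclideanSpace ℝ (Fin d)) (ρ : ℝ) :
    bb p ρ ≤ Fintype.card V := by
  classical
  unfold bb
  exact card_le_univ _

/-- the growth argument -/
theorem growth {d c : ℕ} (hd : 0 < d) (hc0 : 0 < c) (t : ℝ) (ht : t < 1) : ∃ B : ℕ,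
    ∀ (f : ℝ → ℕ) (N : ℕ), (∀ ρ, f ρ ≤ N) → (∀ ρ ≤ 1, ∀ j : ℕ, f ρ + c * f ρ ≤
      c * (2 ^ (j + 1) + 1) ^ d + c * f (ρ + 2 * (d * ((2 : ℝ) ^ j)⁻¹))) → f t ≤ B := by
  have hcR : (0 : ℝ) < c := by exact_mod_cast hc0
  obtain ⟨R, hR⟩ : ∃ R : ℕ, (2 : ℝ) ^ d ≤ (1 + 1 / (2 * c)) ^ R := by
    have h1 : (1 : ℝ) < 1 + 1 / (2 * c) := by
      have : (0 : ℝ) < 1 / (2 * c) := by positivity
      linarith
    exact (pow_unbounded_of_one_lt ((2 : ℝ) ^ d) h1).imp fun _ h => h.le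
  obtain ⟨j₀, hj₀⟩ : ∃ j₀ : ℕ, 4 * R * d * ((2 : ℝ) ^ j₀)⁻¹ ≤ 1 - t := by
    have h1 : Filter.Tendsto (fun j : ℕ => 4 * R * d * ((2 : ℝ) ^ j)⁻¹) Filter.atTop (nhds (4 * R * d * 0)) :=
      (tendsto_inv_atTop_zero.comp (tendsto_pow_atTop_atTop_of_one_lt (by norm_num))).const_mul _
    rw [mul_zero] at h1
    exact ((h1.eventually (gt_mem_nhds (sub_pos.2 ht))).exists).imp fun _ h => h.le
  refine ⟨2 * c * (2 ^ (j₀ + 1) + 1) ^ d, fun f N hN hf => ?_⟩
  by_contra hcon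
  push Not at hcon
  have sub : ∀ (j : ℕ) (ρ : ℝ), (2 * c * (2 ^ (j + 1) + 1) ^ d : ℝ) ≤ f ρ →
      ∀ r : ℕ, ρ + r * (2 * (d * ((2 : ℝ) ^ j)⁻¹)) ≤ 1 →
      (1 + 1 / (2 * c)) ^ r * (2 * c * (2 ^ (j + 1) + 1) ^ d : ℝ) ≤
        f (ρ + r * (2 * (d * ((2 : ℝ) ^ j)⁻¹))) := by
    intro j ρ h1 r
    induction r with
    | zero =>
      intro _
      simpa using h1
    | succ r ih =>
      intro h2
      have h0 : (0 : ℝ) ≤ 2 * (d * ((2 : ℝ) ^ j)⁻¹) := by positivity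
      have h3 : ρ + r * (2 * (d * ((2 : ℝ) ^ j)⁻¹)) ≤ 1 := by
        push_cast at h2
        linarith
      have h4 := ih h3
      have h5 := hf _ h3 j
      have h6 : ρ + r * (2 * (d * ((2 : ℝ) ^ j)⁻¹)) + 2 * (d * ((2 : ℝ) ^ j)⁻¹) =
          ρ + (r + 1 : ℕ) * (2 * (d * ((2 : ℝ) ^ j)⁻¹)) := by
        push_cast
        ring
      rw [h6] at h5
      obtain ⟨y, hy⟩ : ∃ y : ℝ, y = f (ρ + r * (2 * (d * ((2 : ℝ) ^ j)⁻¹))) := ⟨_, rfl⟩
      obtain ⟨y', hy'⟩ : ∃ y' : ℝ, y' = f (ρ + (r + 1 : ℕ) * (2 * (d * ((2 : ℝ) ^ j)⁻¹))) := ⟨_, rfl⟩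
      obtain ⟨K, hK⟩ : ∃ K : ℝ, K = (2 ^ (j + 1) + 1) ^ d := ⟨_, rfl⟩
      have h7 : y + c * y ≤ c * K + c * y' := by
        rw [hy, hy', hK]
        exact_mod_cast h5
      rw [← hy, ← hK] at h4
      rw [← hy', ← hK]
      have hK0 : 0 ≤ K := by rw [hK]; positivity
      have h8 : 2 * c * K ≤ y := by
        refine le_trans ?_ h4
        have : (1 : ℝ) ≤ (1 + 1 / (2 * c)) ^ r := one_le_pow₀ (by
          have : (0 : ℝ) < 1 / (2 * c) := by positivity
          linarith)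
        have h9 : 0 ≤ 2 * c * K := by positivity
        nlinarith
      have h9 : (1 + 1 / (2 * c)) * y ≤ y' := by
        have h10 : c * ((1 + 1 / (2 * c)) * y) = c * y + y / 2 := by
          field_simp
        have h11 : c * ((1 + 1 / (2 * c)) * y) ≤ c * y' := by
          rw [h10]
          linarith
        exact le_of_mul_le_mul_left h11 hcR
      calc (1 + 1 / (2 * c)) ^ (r + 1) * (2 * c * K) = (1 + 1 / (2 * c)) *
            ((1 + 1 / (2 * c)) ^ r * (2 * c * K)) := by ring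
        _ ≤ (1 + 1 / (2 * c)) * y := by gcongr
        _ ≤ y' := h9
  have main : ∀ i : ℕ, (2 * c * (2 ^ (j₀ + i + 1) + 1) ^ d : ℝ) ≤
      f (t + 4 * R * d * ((2 : ℝ) ^ j₀)⁻¹ * (1 - ((2 : ℝ) ^ i)⁻¹)) := by
    intro i
    induction i with
    | zero =>
      have : t + 4 * R * d * ((2 : ℝ) ^ j₀)⁻¹ * (1 - ((2 : ℝ) ^ 0)⁻¹) = t := by norm_num
      rw [this]
      exact_mod_cast hcon.le
    | succ i ih =>
      have h1 : t + 4 * R * d * ((2 : ℝ) ^ j₀)⁻¹ * (1 - ((2 : ℝ) ^ i)⁻¹) +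
          R * (2 * (d * ((2 : ℝ) ^ (j₀ + i))⁻¹)) =
          t + 4 * R * d * ((2 : ℝ) ^ j₀)⁻¹ * (1 - ((2 : ℝ) ^ (i + 1))⁻¹) := by
        rw [pow_add, pow_succ (2 : ℝ) i]
        field_simp
        ring
      have h2 : t + 4 * R * d * ((2 : ℝ) ^ j₀)⁻¹ * (1 - ((2 : ℝ) ^ (i + 1))⁻¹) ≤ 1 := by
        have a1 : (0 : ℝ) < ((2 : ℝ) ^ (i + 1))⁻¹ := by positivity
        have a2 : (0 : ℝ) ≤ 4 * R * d * ((2 : ℝ) ^ j₀)⁻¹ := by positivity
        nlinarith
      have h3 := sub (j₀ + i) _ ih R (by rw [h1]; exact h2)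
      rw [h1] at h3
      refine le_trans ?_ h3
      have h4 : ((2 : ℝ) ^ (j₀ + (i + 1) + 1) + 1) ^ d ≤ 2 ^ d * (2 ^ (j₀ + i + 1) + 1) ^ d := by
        rw [← mul_pow]
        refine pow_le_pow_left₀ (by positivity) ?_ d
        have : (2 : ℝ) ^ (j₀ + (i + 1) + 1) = 2 * 2 ^ (j₀ + i + 1) := by ring
        rw [this]
        linarith
      calc (2 * c * (2 ^ (j₀ + (i + 1) + 1) + 1) ^ d : ℝ) ≤
            2 * c * (2 ^ d * (2 ^ (j₀ + i + 1) + 1) ^ d) := by gcongr
        _ = 2 ^ d * (2 * c * (2 ^ (j₀ + i + 1) + 1) ^ d) := by ring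
        _ ≤ _ := by gcongr
  have h1 := main N
  have h2 : (f (t + 4 * R * d * ((2 : ℝ) ^ j₀)⁻¹ * (1 - ((2 : ℝ) ^ N)⁻¹)) : ℝ) ≤ N := by
    exact_mod_cast hN _
  have h3 : 2 * c * (2 ^ (j₀ + N + 1) + 1) ^ d ≤ N := by
    exact_mod_cast h1.trans h2
  have h4 : N < 2 ^ (j₀ + N + 1) + 1 := by
    have := Nat.lt_two_pow_self (n := N)
    have : 2 ^ N ≤ 2 ^ (j₀ + N + 1) := Nat.pow_le_pow_right (by norm_num) (by omega)
    omega
  have h5 : 2 ^ (j₀ + N + 1) + 1 ≤ (2 ^ (j₀ + N + 1) + 1) ^ d := Nat.le_self_pow hd.ne' _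
  have h6 : (2 ^ (j₀ + N + 1) + 1) ^ d ≤ 2 * c * (2 ^ (j₀ + N + 1) + 1) ^ d :=
    Nat.le_mul_of_pos_left _ (by positivity)
  omega

open Classical in
/-- **finitely many vertices in a smaller ball** -/
theorem bound {d : ℕ} (hd : 0 < d) (t : ℝ) (ht : t < 1) : ∃ B : ℕ, ∀ (V : Type) [Fintype V]
    (G : SimpleGraph V) (p : V → EuclideanSpace ℝ (Fin d)), Function.Injective p → G.IsAcyclic →
    Ex G p → (∀ v, ‖p v‖ < 1 → 3 ≤ (univ.filter fun w => G.Adj v w).card) → bb p t ≤ B := by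
  obtain ⟨c, hc0, hc⟩ := packT d
  obtain ⟨B, hB⟩ := growth (d := d) (c := c) hd hc0 t ht
  refine ⟨B, fun V _ G p hp hG hex hdeg => ?_⟩
  exact hB (bb p) (Fintype.card V) (bb_mono p) fun ρ hρ j => step hc hp hG hex hdeg hρ

open Classical in
/-- the version for all balls -/
theorem bound_ball {d : ℕ} (hd : 0 < d) (t : ℝ) (ht : t < 1) : ∃ B : ℕ, ∀ (V : Type) [Fintype V]
    (G : SimpleGraph V) (p : V → EuclideanSpace ℝ (Fin d)) (x : EuclideanSpace ℝ (Fin d)) (r : ℝ),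
    0 < r → Function.Injective p → G.IsAcyclic → Ex G p →
    (∀ v, dist (p v) x < r → 3 ≤ (G.neighborSet v).ncard) →
    (univ.filter fun v => dist (p v) x < t * r).card ≤ B := by
  obtain ⟨B, hB⟩ := bound hd t ht
  refine ⟨B, fun V _ G p x r hr hp hG hex hdeg => ?_⟩
  obtain ⟨q, hq⟩ : ∃ q : V → EuclideanSpace ℝ (Fin d), q = fun v => r⁻¹ • (p v - x) := ⟨_, rfl⟩
  have hr' : 0 < r⁻¹ := inv_pos.2 hr
  have e1 : ∀ u v, ‖q u - q v‖ = r⁻¹ * ‖p u - p v‖ := by
    intro u v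
    rw [hq]
    simp only
    rw [← smul_sub, sub_sub_sub_cancel_right, norm_smul, Real.norm_of_nonneg hr'.le]
  have e2 : ∀ v, ‖q v‖ = r⁻¹ * dist (p v) x := by
    intro v
    rw [hq]
    simp only
    rw [norm_smul, Real.norm_of_nonneg hr'.le, dist_eq_norm]
  have h1 := hB V G q (by
    intro u v h
    have h2 : ‖q u - q v‖ = 0 := by rw [h, sub_self, norm_zero]
    rw [e1] at h2
    have h3 : ‖p u - p v‖ = 0 := by
      rcases mul_eq_zero.1 h2 with h4 | h4
      · exact absurd h4 hr'.ne'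
      · exact h4
    exact hp (sub_eq_zero.1 (norm_eq_zero.1 h3))) hG (by
    intro u v u' v' h1 h2 h3 h4
    rw [e1, e1] at h4
    rw [e1, e1]
    exact mul_le_mul_of_nonneg_left (hex u v u' v' h1 h2 h3 (lt_of_mul_lt_mul_left h4 hr'.le)) hr'.le)
    (by
    intro v hv
    rw [e2, inv_mul_lt_iff₀ hr, mul_one] at hv
    have h2 := hdeg v hv
    have h3 : G.neighborSet v = ((univ.filter fun w => G.Adj v w : Finset V) : Set V) := by
      ext w
      simp [SimpleGraph.mem_neighborSet]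
    rwa [h3, Set.ncard_coe_finset] at h2)
  refine le_trans (le_of_eq ?_) h1
  unfold bb
  congr 1
  ext v
  simp only [mem_filter, mem_univ, true_and]
  rw [e2, inv_mul_lt_iff₀ hr, mul_comm]

open MeasureTheory in
/-- the exchange property of Steiner trees -/
theorem ex_of_min {V : Type} [Finite V] {d : ℕ} {G : SimpleGraph V} (hG : G.IsTree)
    {p : V → EuclideanSpace ℝ (Fin d)} {A : Set (EuclideanSpace ℝ (Fin d))} (hA : A ⊆ Set.range p)
    (hconn : IsConnected (⋃ (a) (b) (_ : G.Adj a b), segment ℝ (p a) (p b)))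
    (hmin : ∀ K : Set (EuclideanSpace ℝ (Fin d)), A ⊆ K → IsCompact K → IsConnected K →
      μH[1] (⋃ (a) (b) (_ : G.Adj a b), segment ℝ (p a) (p b)) ≤ μH[1] K)
    (hemb : ∀ a b a' b', G.Adj a b → G.Adj a' b' → s(a, b) ≠ s(a', b') →
      segment ℝ (p a) (p b) ∩ segment ℝ (p a') (p b') ⊆ {p a, p b} ∩ {p a', p b'}) : Ex G p := by
  obtain ⟨y, hy⟩ := hconn.nonempty
  simp only [Set.mem_iUnion] at hy
  obtain ⟨a, b, hab, -⟩ := hy
  have hnt : Nontrivial V := ⟨⟨a, b, hab.ne⟩⟩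
  intro u v u' v' h1 h2 h3 h4
  refine exch hG.connected (fun u v w x huv hconn => ?_) u v u' v' h1 h2 h3 h4
  exact exchange hA hmin
    (fun a b a' b' h1 h2 h3 => (hemb a b a' b' h1 h2 h3).trans Set.inter_subset_right) huv hconn

end Pool.Agent.N385.ST
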