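import Mathlib
import Pool.Agent.N385.ST.Free

/-!
# Edges of Steiner trees crossing a ball (helper385)
-/

set_option autoImplicit false

namespace Pool.Agent.N385.ST

open MeasureTheory Set

variable {V : Type} {d : ℕ}

theorem joined_walk2 {H : SimpleGraph V} {p : V → EuclideanSpace ℝ (Fin d)}
    {K : Set (EuclideanSpace ℝ (Fin d))} (hK : carrier H p ⊆ K) (hall : ∀ a, p a ∈ K) {a b : V}
    (w : H.Walk a b) : JoinedIn K (p a) (p b) := by
  induction w with
  | nil => exact JoinedIn.refl (hall _)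
  | cons h _ ih => exact (JoinedIn.of_segment_subset ((seg_sub p h).trans hK)).trans ih

theorem carrier_meas {G : SimpleGraph V} {p : V → EuclideanSpace ℝ (Fin d)}
    (hemb : ∀ a b a' b', G.Adj a b → G.Adj a' b' → s(a, b) ≠ s(a', b') →
      segment ℝ (p a) (p b) ∩ segment ℝ (p a') (p b') ⊆ {p a', p b'})
    {u v : V} (huv : G.Adj u v) : μH[1] (carrier G p) =
      μH[1] (carrier (G.deleteEdges {s(u, v)}) p) + edist (p u) (p v) := by
  obtain ⟨H, hH⟩ : ∃ H, H = G.deleteEdges {s(u, v)} := ⟨_, rfl⟩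
  rw [← hH]
  have hHadj : ∀ a b, H.Adj a b ↔ G.Adj a b ∧ s(a, b) ≠ s(u, v) := by
    intro a b
    rw [hH, SimpleGraph.deleteEdges_adj, mem_singleton_iff]
  have e1 : carrier G p = carrier H p ∪ segment ℝ (p u) (p v) := by
    ext y
    rw [mem_union, mem_carrier, mem_carrier]
    constructor
    · rintro ⟨a, b, hab, hy⟩
      by_cases h : s(a, b) = s(u, v)
      · right
        rcases Sym2.eq_iff.1 h with ⟨rfl, rfl⟩ | ⟨rfl, rfl⟩
        · exact hy
        · rwa [segment_symm]
      · left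
        exact ⟨a, b, (hHadj a b).2 ⟨hab, h⟩, hy⟩
    · rintro (⟨a, b, hab, hy⟩ | hy)
      · exact ⟨a, b, ((hHadj a b).1 hab).1, hy⟩
      · exact ⟨u, v, huv, hy⟩
  rw [e1, ← hausdorffMeasure_segment]
  refine measure_union₀ (seg_compact _ _).measurableSet.nullMeasurableSet ?_
  have h1 : carrier H p ∩ segment ℝ (p u) (p v) ⊆ {p u, p v} := by
    rintro y ⟨hy1, hy2⟩
    obtain ⟨a, b, hab, hy3⟩ := mem_carrier.1 hy1
    obtain ⟨h2, h3⟩ := (hHadj a b).1 hab
    exact hemb a b u v h2 huv h3 ⟨hy3, hy2⟩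
  have h2 : μH[1] ({p u, p v} : Set (EuclideanSpace ℝ (Fin d))) = 0 := by
    have := Measure.nullSingletonClass_hausdorff (EuclideanSpace ℝ (Fin d)) (one_pos : (0 : ℝ) < 1)
    exact (Set.toFinite _).measure_zero _
  exact measure_mono_null h1 h2

theorem exchange2 [Finite V] [Nontrivial V] {G : SimpleGraph V} (hG : G.Connected)
    {p : V → EuclideanSpace ℝ (Fin d)}
    {A : Set (EuclideanSpace ℝ (Fin d))} (hA : A ⊆ range p)
    (hmin : ∀ K, A ⊆ K → IsCompact K → IsConnected K → μH[1] (carrier G p) ≤ μH[1] K)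
    (hemb : ∀ a b a' b', G.Adj a b → G.Adj a' b' → s(a, b) ≠ s(a', b') →
      segment ℝ (p a) (p b) ∩ segment ℝ (p a') (p b') ⊆ {p a', p b'})
    {u v u' v' : V} (huv : G.Adj u v) (h' : (G.deleteEdges {s(u, v)}).Adj u' v')
    (hr : (G.deleteEdges {s(u, v)}).Reachable u' v) {x y : EuclideanSpace ℝ (Fin d)}
    (hx : x ∈ segment ℝ (p u) (p v)) (hy : y ∈ segment ℝ (p u') (p v')) :
    dist x (p v) ≤ dist x y := by
  have hmeas := carrier_meas hemb huv
  have hor := fun a => reach_or hG (u := u) (v := v) a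
  have hHadj : ∀ a b, (G.deleteEdges {s(u, v)}).Adj a b ↔ G.Adj a b ∧ s(a, b) ≠ s(u, v) := by
    intro a b
    rw [SimpleGraph.deleteEdges_adj, mem_singleton_iff]
  obtain ⟨H, hH⟩ : ∃ H, H = G.deleteEdges {s(u, v)} := ⟨_, rfl⟩
  rw [← hH] at hmeas h' hr hHadj
  simp only [← hH] at hor
  obtain ⟨K, hK⟩ : ∃ K, K = carrier H p ∪ (segment ℝ (p u) x ∪ segment ℝ x y) := ⟨_, rfl⟩
  have k1 : carrier H p ⊆ K := by rw [hK]; exact subset_union_left
  have k2 : segment ℝ (p u) x ⊆ K := by
    rw [hK]; exact subset_union_left.trans subset_union_right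
  have k3 : segment ℝ x y ⊆ K := by
    rw [hK]; exact subset_union_right.trans subset_union_right
  have hv : p v ∈ carrier H p := by
    obtain ⟨w⟩ := hr.symm
    cases w with
    | nil => exact seg_sub p h' (left_mem_segment ℝ _ _)
    | cons h _ => exact seg_sub p h (left_mem_segment ℝ _ _)
  have hall : ∀ a, p a ∈ K := by
    intro a
    obtain ⟨b, hb⟩ := exists_nbr hG a
    by_cases h : s(a, b) = s(u, v)
    · rcases Sym2.eq_iff.1 h with ⟨h1, -⟩ | ⟨h1, -⟩
      · rw [h1]
        exact k2 (left_mem_segment ℝ _ _)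
      · rw [h1]
        exact k1 hv
    · exact k1 (seg_sub p ((hHadj a b).2 ⟨hb, h⟩) (left_mem_segment ℝ _ _))
  have jx : JoinedIn K (p u) x := JoinedIn.of_segment_subset k2
  have jxy : JoinedIn K x y := JoinedIn.of_segment_subset k3
  have jy : JoinedIn K (p u') y := by
    apply JoinedIn.of_segment_subset
    exact ((convex_segment (p u') (p v')).segment_subset (left_mem_segment ℝ _ _) hy).trans
      ((seg_sub p h').trans k1)
  have jv : JoinedIn K (p u') (p v) := by
    obtain ⟨w⟩ := hr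
    exact joined_walk2 k1 hall w
  have juv : JoinedIn K (p u) (p v) := jx.trans (jxy.trans (jy.symm.trans jv))
  have ja : ∀ a, JoinedIn K (p u) (p a) := by
    intro a
    rcases hor a with ⟨⟨w⟩⟩ | ⟨⟨w⟩⟩
    · exact (joined_walk2 k1 hall w).symm
    · exact juv.trans (joined_walk2 k1 hall w).symm
  have hconn : IsConnected K := by
    apply IsPathConnected.isConnected
    refine ⟨p u, hall u, fun {z} hz => ?_⟩
    rw [hK] at hz
    rcases hz with hz | hz | hz
    · obtain ⟨a, b, hab, hz2⟩ := mem_carrier.1 hz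
      refine (ja a).trans (JoinedIn.of_segment_subset ?_)
      exact ((convex_segment (p a) (p b)).segment_subset (left_mem_segment ℝ _ _) hz2).trans
        ((seg_sub p hab).trans k1)
    · refine JoinedIn.of_segment_subset (Subset.trans ?_ k2)
      exact (convex_segment (p u) x).segment_subset (left_mem_segment ℝ _ _) hz
    · refine jx.trans (JoinedIn.of_segment_subset (Subset.trans ?_ k3))
      exact (convex_segment x y).segment_subset (left_mem_segment ℝ _ _) hz
  have hcomp : IsCompact K := by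
    rw [hK]
    exact (carrier_compact H p).union ((seg_compact _ _).union (seg_compact _ _))
  have e4 : μH[1] K ≤ μH[1] (carrier H p) + (edist (p u) x + edist x y) := by
    rw [hK]
    refine (measure_union_le _ _).trans (add_le_add_right ?_ _)
    refine (measure_union_le _ _).trans ?_
    rw [hausdorffMeasure_segment, hausdorffMeasure_segment]
  have e5 := (hmin K (hA.trans (range_subset_iff.2 hall)) hcomp hconn).trans e4
  rw [hmeas] at e5
  have e7 : edist (p u) (p v) ≤ edist (p u) x + edist x y :=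
    (ENNReal.add_le_add_iff_left (carrier_lt_top H p).ne).1 e5
  rw [edist_dist, edist_dist, edist_dist, ← ENNReal.ofReal_add dist_nonneg dist_nonneg] at e7
  have e8 := (ENNReal.ofReal_le_ofReal_iff (by positivity)).1 e7
  have e9 := dist_add_dist_of_mem_segment hx
  linarith

/-- points on different edges are far from each other -/
theorem cross_sep [Finite V] [Nontrivial V] {G : SimpleGraph V} (hG : G.Connected)
    {p : V → EuclideanSpace ℝ (Fin d)}
    {A : Set (EuclideanSpace ℝ (Fin d))} (hA : A ⊆ range p)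
    (hmin : ∀ K, A ⊆ K → IsCompact K → IsConnected K → μH[1] (carrier G p) ≤ μH[1] K)
    (hemb : ∀ a b a' b', G.Adj a b → G.Adj a' b' → s(a, b) ≠ s(a', b') →
      segment ℝ (p a) (p b) ∩ segment ℝ (p a') (p b') ⊆ {p a', p b'})
    {u v u' v' : V} (huv : G.Adj u v) (huv' : G.Adj u' v') (hne : s(u, v) ≠ s(u', v'))
    {x y : EuclideanSpace ℝ (Fin d)}
    (hx : x ∈ segment ℝ (p u) (p v)) (hy : y ∈ segment ℝ (p u') (p v')) :
    dist x (p u) ≤ dist x y ∨ dist x (p v) ≤ dist x y := by
  rcases reach_or hG (u := u) (v := v) u' with h | h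
  · left
    rw [Sym2.eq_swap] at h
    refine exchange2 hG hA hmin hemb huv.symm (u' := u') (v' := v') ?_ h
      (by rwa [segment_symm]) hy
    rw [SimpleGraph.deleteEdges_adj, mem_singleton_iff, Sym2.eq_swap (a := v)]
    exact ⟨huv', fun h2 => hne h2.symm⟩
  · right
    refine exchange2 hG hA hmin hemb huv (u' := u') (v' := v') ?_ h hx hy
    rw [SimpleGraph.deleteEdges_adj, mem_singleton_iff]
    exact ⟨huv', fun h2 => hne h2.symm⟩

theorem packS (d : ℕ) (s : ℝ) (hs : 0 < s) : ∃ c : ℕ, ∀ (ι : Type) (S : Finset ι)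
    (ω : ι → EuclideanSpace ℝ (Fin d)), (∀ b ∈ S, ‖ω b‖ ≤ 1) →
    (∀ b ∈ S, ∀ b' ∈ S, b ≠ b' → s ≤ ‖ω b - ω b'‖) → S.card ≤ c := by
  obtain ⟨t, -, ht, hcov⟩ := (isCompact_closedBall (0 : EuclideanSpace ℝ (Fin d)) 1).finite_cover_balls
    (by positivity : (0 : ℝ) < s / 2)
  refine ⟨ht.toFinset.card, fun ι S ω h1 h2 => ?_⟩
  have h3 : ∀ b ∈ S, ∃ x ∈ t, dist (ω b) x < s / 2 := by
    intro b hb
    have h4 : ω b ∈ Metric.closedBall (0 : EuclideanSpace ℝ (Fin d)) 1 := by
      rw [mem_closedBall_zero_iff]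
      exact h1 b hb
    have h5 := hcov h4
    simp only [Set.mem_iUnion, Metric.mem_ball] at h5
    obtain ⟨x, hx, h6⟩ := h5
    exact ⟨x, hx, h6⟩
  choose! x hx hx2 using h3
  refine Finset.card_le_card_of_injOn x (fun b hb => by simpa using hx b hb) ?_
  intro b hb b' hb' hbb
  by_contra hne
  have h4 := h2 b hb b' hb' hne
  have h5 := hx2 b hb
  have h6 := hx2 b' hb'
  have h7 := dist_triangle_right (ω b) (ω b') (x b)
  rw [hbb] at h5
  rw [hbb, dist_eq_norm] at h7
  linarith

end Pool.Agent.N385.ST
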