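import Mathlib
import Pool.Agent.N385.ST.Cross

/-!
# The number of edges of Steiner trees meeting a ball (helper385)
-/

set_option autoImplicit false

namespace Pool.Agent.N385.ST

open MeasureTheory

open Classical in
/-- the edges meeting a closed ball -/
noncomputable def meet {d n : ℕ} (G : SimpleGraph (Fin n)) (p : Fin n → EuclideanSpace ℝ (Fin d))
    (x : EuclideanSpace ℝ (Fin d)) (ρ : ℝ) : Finset (Fin n × Fin n) :=
  Finset.univ.filter fun e => e.1 < e.2 ∧ G.Adj e.1 e.2 ∧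
    (segment ℝ (p e.1) (p e.2) ∩ Metric.closedBall x ρ).Nonempty

open Classical in
theorem mem_meet {d n : ℕ} {G : SimpleGraph (Fin n)} {p : Fin n → EuclideanSpace ℝ (Fin d)}
    {x : EuclideanSpace ℝ (Fin d)} {ρ : ℝ} {e : Fin n × Fin n} : e ∈ meet G p x ρ ↔
    e.1 < e.2 ∧ G.Adj e.1 e.2 ∧ (segment ℝ (p e.1) (p e.2) ∩ Metric.closedBall x ρ).Nonempty := by
  unfold meet
  rw [Finset.mem_filter]
  exact ⟨fun h => h.2, fun h => ⟨Finset.mem_univ _, h⟩⟩

theorem cross_count {d : ℕ} (hd : 0 < d) (t : ℝ) (ht : t < 1) : ∃ B : ℕ,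
    ∀ (n : ℕ) (G : SimpleGraph (Fin n)) (p : Fin n → EuclideanSpace ℝ (Fin d))
    (A : Set (EuclideanSpace ℝ (Fin d))) (x : EuclideanSpace ℝ (Fin d)) (r : ℝ), 0 < r →
    Function.Injective p → G.IsTree → A ⊆ Set.range p → IsConnected (carrier G p) →
    (∀ K, A ⊆ K → IsCompact K → IsConnected K → μH[1] (carrier G p) ≤ μH[1] K) →
    (∀ a b a' b', G.Adj a b → G.Adj a' b' → s(a, b) ≠ s(a', b') →
      segment ℝ (p a) (p b) ∩ segment ℝ (p a') (p b') ⊆ {p a, p b} ∩ {p a', p b'}) →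
    (∀ v, dist (p v) x < r → 3 ≤ (G.neighborSet v).ncard) →
    (meet G p x (t * r)).card ≤ B := by
  classical
  obtain ⟨c, hc0, hc⟩ := packT d
  obtain ⟨s, hs⟩ : ∃ s : ℝ, s = (1 - t) / 2 := ⟨_, rfl⟩
  have hs0 : 0 < s := by rw [hs]; linarith
  obtain ⟨c', hc'⟩ := packS d s hs0
  obtain ⟨B, hB⟩ := bound_ball hd (t + s) (by rw [hs]; linarith)
  refine ⟨c * B + c * B + c', fun n G p A x r hr hp hG hA hconn hmin hemb hdeg => ?_⟩
  have hex : Ex G p := ex_of_min hG hA hconn hmin hemb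
  have hnt : Nontrivial (Fin n) := by
    obtain ⟨y, hy⟩ := hconn.nonempty
    obtain ⟨a, b, hab, -⟩ := mem_carrier.1 hy
    exact ⟨⟨a, b, hab.ne⟩⟩
  have hb := hB (Fin n) G p x r hr hp hG.isAcyclic hex hdeg
  have hemb' : ∀ a b a' b', G.Adj a b → G.Adj a' b' → s(a, b) ≠ s(a', b') →
      segment ℝ (p a) (p b) ∩ segment ℝ (p a') (p b') ⊆ {p a', p b'} :=
    fun a b a' b' h1 h2 h3 => (hemb a b a' b' h1 h2 h3).trans Set.inter_subset_right
  obtain ⟨Y, hY⟩ : ∃ Y, Y = meet G p x (t * r) := ⟨_, rfl⟩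
  have mY : ∀ e ∈ Y, e.1 < e.2 ∧ G.Adj e.1 e.2 ∧
      (segment ℝ (p e.1) (p e.2) ∩ Metric.closedBall x (t * r)).Nonempty := by
    intro e he
    rw [hY] at he
    exact mem_meet.1 he
  rw [← hY]
  -- distinct pairs are distinct edges
  have hdist : ∀ e ∈ Y, ∀ e' ∈ Y, e ≠ e' → s(e.1, e.2) ≠ s(e'.1, e'.2) := by
    intro e he e' he' hee h
    rcases Sym2.eq_iff.1 h with ⟨b1, b2⟩ | ⟨b1, b2⟩
    · exact hee (Prod.ext b1 b2)
    · have h1 := (mY e he).1
      have h2 := (mY e' he').1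
      rw [b1, b2] at h1
      exact lt_asymm h1 h2
  have c1 : (Y.filter fun e => dist (p e.1) x < (t + s) * r).card ≤ c * B := by
    have h3 := Finset.card_le_mul_card_image (f := fun e : Fin n × Fin n => e.1)
      (Y.filter fun e => dist (p e.1) x < (t + s) * r) c (by
      intro z _
      refine long_cardT hc hp hex _ 0 ?_ ?_ ?_ ?_
      · intro e he
        rw [Finset.mem_filter, Finset.mem_filter] at he
        exact (mY e he.1.1).2.1
      · intro e he e' he'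
        rw [Finset.mem_filter, Finset.mem_filter] at he he'
        exact hdist e he.1.1 e' he'.1.1
      · intro e he e' he'
        rw [Finset.mem_filter] at he he'
        rw [he.2, he'.2, sub_self, norm_zero]
      · intro e he
        simp)
    refine h3.trans (Nat.mul_le_mul_left _ (le_trans (Finset.card_le_card ?_) hb))
    intro z hz
    obtain ⟨e, he, rfl⟩ := Finset.mem_image.1 hz
    rw [Finset.mem_filter] at he ⊢
    exact ⟨Finset.mem_univ _, he.2⟩
  have c2 : (Y.filter fun e => dist (p e.2) x < (t + s) * r).card ≤ c * B := by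
    have h3 := Finset.card_le_mul_card_image (f := fun e : Fin n × Fin n => e.2)
      (Y.filter fun e => dist (p e.2) x < (t + s) * r) c (by
      intro z _
      obtain ⟨F, hF⟩ : ∃ F, F = (Y.filter fun e => dist (p e.2) x < (t + s) * r).filter
        fun e => e.2 = z := ⟨_, rfl⟩
      have mF : ∀ e ∈ F, e.2 = z ∧ e ∈ Y := by
        intro e he
        rw [hF, Finset.mem_filter, Finset.mem_filter] at he
        exact ⟨he.2, he.1.1⟩
      have h6 : (F.image Prod.swap).card ≤ c := by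
        refine long_cardT hc hp hex _ 0 ?_ ?_ ?_ ?_
        · intro e he
          obtain ⟨e', he', rfl⟩ := Finset.mem_image.1 he
          exact (mY e' (mF e' he').2).2.1.symm
        · intro e he e' he' hee h
          obtain ⟨f, hf, rfl⟩ := Finset.mem_image.1 he
          obtain ⟨f', hf', rfl⟩ := Finset.mem_image.1 he'
          refine hdist f (mF f hf).2 f' (mF f' hf').2 (fun h7 => hee (by rw [h7])) ?_
          simp only [Prod.fst_swap, Prod.snd_swap] at h
          rw [Sym2.eq_swap, h, Sym2.eq_swap]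
        · intro e he e' he'
          obtain ⟨f, hf, rfl⟩ := Finset.mem_image.1 he
          obtain ⟨f', hf', rfl⟩ := Finset.mem_image.1 he'
          simp only [Prod.fst_swap]
          rw [(mF f hf).1, (mF f' hf').1, sub_self, norm_zero]
        · intro e he
          simp
      rw [Finset.card_image_of_injective _ Prod.swap_injective, hF] at h6
      exact h6)
    refine h3.trans (Nat.mul_le_mul_left _ (le_trans (Finset.card_le_card ?_) hb))
    intro z hz
    obtain ⟨e, he, rfl⟩ := Finset.mem_image.1 hz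
    rw [Finset.mem_filter] at he ⊢
    exact ⟨Finset.mem_univ _, he.2⟩
  have c3 : (Y.filter fun e => ¬ dist (p e.1) x < (t + s) * r ∧ ¬ dist (p e.2) x < (t + s) * r).card ≤
      c' := by
    have hpt : ∀ e ∈ Y, ∃ y, y ∈ segment ℝ (p e.1) (p e.2) ∧ dist y x ≤ t * r := by
      intro e he
      obtain ⟨y, hy1, hy2⟩ := (mY e he).2.2
      exact ⟨y, hy1, hy2⟩
    choose! y hy1 hy2 using hpt
    have hr' : 0 < r⁻¹ := inv_pos.2 hr
    refine hc' _ _ (fun e => r⁻¹ • (y e - x)) ?_ ?_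
    · intro e he
      rw [Finset.mem_filter] at he
      rw [norm_smul, Real.norm_of_nonneg hr'.le, ← dist_eq_norm, inv_mul_le_iff₀ hr, mul_one]
      have := hy2 e he.1
      nlinarith
    · intro e he e' he' hee
      rw [Finset.mem_filter] at he he'
      rw [← smul_sub, sub_sub_sub_cancel_right, norm_smul, Real.norm_of_nonneg hr'.le, ← dist_eq_norm,
        le_inv_mul_iff₀ hr]
      have h1 := he.2.1
      have h2 := he.2.2
      push Not at h1 h2
      have h3 := hy2 e he.1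
      rcases cross_sep hG.connected hA hmin hemb' (mY e he.1).2.1 (mY e' he'.1).2.1
        (hdist e he.1 e' he'.1 hee) (hy1 e he.1) (hy1 e' he'.1) with h4 | h4
      · have h5 := dist_triangle_left (p e.1) x (y e)
        nlinarith
      · have h5 := dist_triangle_left (p e.2) x (y e)
        nlinarith
  have hsub : Y ⊆ (Y.filter fun e => dist (p e.1) x < (t + s) * r) ∪
      ((Y.filter fun e => dist (p e.2) x < (t + s) * r) ∪
      (Y.filter fun e => ¬ dist (p e.1) x < (t + s) * r ∧ ¬ dist (p e.2) x < (t + s) * r)) := by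
    intro e he
    simp only [Finset.mem_union, Finset.mem_filter]
    by_cases h1 : dist (p e.1) x < (t + s) * r
    · exact Or.inl ⟨he, h1⟩
    · by_cases h2 : dist (p e.2) x < (t + s) * r
      · exact Or.inr (Or.inl ⟨he, h2⟩)
      · exact Or.inr (Or.inr ⟨he, h1, h2⟩)
  refine (Finset.card_le_card hsub).trans ((Finset.card_union_le _ _).trans ?_)
  have h9 := Finset.card_union_le (Y.filter fun e => dist (p e.2) x < (t + s) * r)
    (Y.filter fun e => ¬ dist (p e.1) x < (t + s) * r ∧ ¬ dist (p e.2) x < (t + s) * r)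
  omega

/-- the carrier near the ball -/
theorem carrier_inter {d n : ℕ} {G : SimpleGraph (Fin n)} {p : Fin n → EuclideanSpace ℝ (Fin d)}
    {x : EuclideanSpace ℝ (Fin d)} {ρ : ℝ} {S : Set (EuclideanSpace ℝ (Fin d))}
    (hS : S ⊆ Metric.closedBall x ρ) :
    carrier G p ∩ S ⊆ ⋃ e ∈ meet G p x ρ, segment ℝ (p e.1) (p e.2) ∩ S := by
  rintro y ⟨hy1, hy2⟩
  obtain ⟨a, b, hab, hy3⟩ := mem_carrier.1 hy1
  rw [Set.mem_iUnion₂]
  rcases lt_or_gt_of_ne hab.ne with h | h
  · exact ⟨(a, b), mem_meet.2 ⟨h, hab, ⟨y, hy3, hS hy2⟩⟩, hy3, hy2⟩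
  · rw [segment_symm] at hy3
    exact ⟨(b, a), mem_meet.2 ⟨h, hab.symm, ⟨y, hy3, hS hy2⟩⟩, hy3, hy2⟩

/-- a segment meets a sphere in at most two points -/
theorem seg_sphere {d : ℕ} (a b x : EuclideanSpace ℝ (Fin d)) (hab : a ≠ b) (ρ : ℝ) :
    (segment ℝ a b ∩ Metric.sphere x ρ).encard ≤ 2 := by
  have key : ∀ s₁ s₂ s₃ : ℝ, ‖(a - x) + s₁ • (b - a)‖ = ρ → ‖(a - x) + s₂ • (b - a)‖ = ρ →
      ‖(a - x) + s₃ • (b - a)‖ = ρ → s₁ = s₂ ∨ s₁ = s₃ ∨ s₂ = s₃ := by
    intro s₁ s₂ s₃ h1 h2 h3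
    have hA : 0 < ‖b - a‖ ^ 2 := by
      have : 0 < ‖b - a‖ := norm_pos_iff.2 (sub_ne_zero.2 hab.symm)
      positivity
    have ex : ∀ s : ℝ, ‖(a - x) + s • (b - a)‖ ^ 2 =
        ‖a - x‖ ^ 2 + 2 * s * inner ℝ (a - x) (b - a) + s ^ 2 * ‖b - a‖ ^ 2 := by
      intro s
      rw [norm_add_sq_real, inner_smul_right, norm_smul, mul_pow, Real.norm_eq_abs, sq_abs]
      ring
    have f1 := ex s₁
    have f2 := ex s₂
    have f3 := ex s₃
    rw [h1] at f1
    rw [h2] at f2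
    rw [h3] at f3
    by_contra hcon
    push Not at hcon
    obtain ⟨n1, n2, n3⟩ := hcon
    have g1 : (s₁ - s₂) * (2 * inner ℝ (a - x) (b - a) + (s₁ + s₂) * ‖b - a‖ ^ 2) = 0 := by linarith
    have g2 : (s₁ - s₃) * (2 * inner ℝ (a - x) (b - a) + (s₁ + s₃) * ‖b - a‖ ^ 2) = 0 := by linarith
    have g3 := (mul_eq_zero.1 g1).resolve_left (sub_ne_zero.2 n1)
    have g4 := (mul_eq_zero.1 g2).resolve_left (sub_ne_zero.2 n2)
    have g5 : (s₂ - s₃) * ‖b - a‖ ^ 2 = 0 := by linarith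
    rcases mul_eq_zero.1 g5 with h | h
    · exact n3 (sub_eq_zero.1 h)
    · exact hA.ne' h
  by_contra hcon
  push Not at hcon
  obtain ⟨y₁, y₂, y₃, h1, h2, h3, n1, n2, n3⟩ : ∃ y₁ y₂ y₃, y₁ ∈ segment ℝ a b ∩ Metric.sphere x ρ ∧
      y₂ ∈ segment ℝ a b ∩ Metric.sphere x ρ ∧ y₃ ∈ segment ℝ a b ∩ Metric.sphere x ρ ∧
      y₁ ≠ y₂ ∧ y₁ ≠ y₃ ∧ y₂ ≠ y₃ := by
    have h := Set.exists_subset_encard_eq (Order.add_one_le_of_lt hcon)
    obtain ⟨T, hT, hT2⟩ := h
    have h3 : T.encard = 3 := by rw [hT2]; norm_num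
    rw [Set.encard_eq_three] at h3
    obtain ⟨y₁, y₂, y₃, n1, n2, n3, rfl⟩ := h3
    exact ⟨y₁, y₂, y₃, hT (by simp), hT (by simp), hT (by simp), n1, n2, n3⟩
  have par : ∀ y, y ∈ segment ℝ a b ∩ Metric.sphere x ρ →
      ∃ s : ℝ, y = a + s • (b - a) ∧ ‖(a - x) + s • (b - a)‖ = ρ := by
    rintro y ⟨hy1, hy2⟩
    rw [segment_eq_image'] at hy1
    obtain ⟨s, -, rfl⟩ := hy1
    refine ⟨s, rfl, ?_⟩
    have hy3 : ‖a + s • (b - a) - x‖ = ρ := by
      rw [← dist_eq_norm]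
      exact hy2
    rw [← hy3]
    congr 1
    abel
  obtain ⟨s₁, rfl, g1⟩ := par _ h1
  obtain ⟨s₂, rfl, g2⟩ := par _ h2
  obtain ⟨s₃, rfl, g3⟩ := par _ h3
  rcases key s₁ s₂ s₃ g1 g2 g3 with h | h | h
  · exact n1 (by rw [h])
  · exact n2 (by rw [h])
  · exact n3 (by rw [h])

/-- the length of a segment in a ball -/
theorem seg_ball {d : ℕ} (a b x : EuclideanSpace ℝ (Fin d)) (hab : a ≠ b) (ρ : ℝ) :
    μH[1] (segment ℝ a b ∩ Metric.closedBall x ρ) ≤ ENNReal.ofReal (2 * ρ) := by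
  obtain ⟨D, hD⟩ : ∃ D : ℝ, D = ‖b - a‖ := ⟨_, rfl⟩
  have hD0 : 0 < D := by rw [hD]; exact norm_pos_iff.2 (sub_ne_zero.2 hab.symm)
  obtain ⟨T, hT⟩ : ∃ T : Set ℝ, T = {s | s ∈ Set.Icc (0 : ℝ) 1 ∧ a + s • (b - a) ∈
    Metric.closedBall x ρ} := ⟨_, rfl⟩
  have h1 : segment ℝ a b ∩ Metric.closedBall x ρ ⊆ (fun s : ℝ => a + s • (b - a)) '' T := by
    rintro y ⟨hy1, hy2⟩
    rw [segment_eq_image'] at hy1
    obtain ⟨s, hs, rfl⟩ := hy1
    exact ⟨s, by rw [hT]; exact ⟨hs, hy2⟩, rfl⟩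
  have hlip : LipschitzWith D.toNNReal (fun s : ℝ => a + s • (b - a)) := by
    apply LipschitzWith.of_dist_le_mul
    intro s s'
    rw [dist_eq_norm, add_sub_add_left_eq_sub, ← sub_smul, norm_smul, ← hD, Real.coe_toNNReal _ hD0.le,
      mul_comm, Real.dist_eq, Real.norm_eq_abs]
  have h2 := hlip.hausdorffMeasure_image_le (d := 1) (by norm_num) T
  have h3 : μH[1] T ≤ ENNReal.ofReal (2 * ρ / D) := by
    rw [hausdorffMeasure_real]
    refine (Real.volume_le_diam T).trans ?_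
    refine Metric.ediam_le_of_forall_dist_le fun s hs s' hs' => ?_
    rw [hT] at hs hs'
    have h4 := dist_triangle_right (a + s • (b - a)) (a + s' • (b - a)) x
    have h5 : dist (a + s • (b - a)) (a + s' • (b - a)) = dist s s' * D := by
      rw [dist_eq_norm, add_sub_add_left_eq_sub, ← sub_smul, norm_smul, ← hD, Real.dist_eq,
        Real.norm_eq_abs]
    have h6 := hs.2
    have h7 := hs'.2
    rw [Metric.mem_closedBall] at h6 h7
    rw [le_div_iff₀ hD0]
    linarith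
  refine (measure_mono h1).trans (h2.trans ?_)
  rw [ENNReal.rpow_one]
  refine (mul_le_mul_right h3 _).trans (le_of_eq ?_)
  have h8 : ((D.toNNReal : NNReal) : ENNReal) = ENNReal.ofReal D := rfl
  rw [h8, ← ENNReal.ofReal_mul hD0.le]
  congr 1
  field_simp

end Pool.Agent.N385.ST
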